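import Mathlib

/-!
# Grouping elements of the same colour into blocks of size `N`
-/

namespace Pool.Agent.Lib.MP_2001a4_an

open Finset

universe u

lemma combi {α : Type*} {β : Type u} [DecidableEq α] [DecidableEq β] (s T : Finset α) (hT : T ⊆ s)
    (c : α → β) (N : ℕ) (hN : 0 < N)
    (h : ∀ g ∈ s, g ∉ T → N ≤ (T.filter (fun x => c x = c g)).card) :
    ∃ (Γ : Type u) (_ : Fintype Γ) (σ : Γ × Fin N → α), Function.Injective σ ∧
      (∀ x, σ x ∈ s) ∧ (∀ g ∈ s, g ∉ T → ∃ x, σ x = g) ∧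
      (∀ γ i j, c (σ (γ, i)) = c (σ (γ, j))) ∧
      (∀ g, N ≤ (T.filter (fun x => c x = c g)).card → ∃ γ, ∀ i, c (σ (γ, i)) = c g) := by
  classical
  have hS : ∀ b : β, ∃ S : Finset α, S ⊆ T.filter (fun x => c x = b) ∧
      S.card = (s.filter (fun x => c x = b)).card % N := by
    intro b
    apply Finset.exists_subset_card_eq
    by_cases hb : ∃ g ∈ s, g ∉ T ∧ c g = b
    · obtain ⟨g, hg, hgT, rfl⟩ := hb
      exact (Nat.mod_lt _ hN).le.trans (h g hg hgT)
    · push Not at hb
      have : s.filter (fun x => c x = b) ⊆ T.filter (fun x => c x = b) := by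
        intro x hx
        rw [mem_filter] at hx ⊢
        refine ⟨?_, hx.2⟩
        by_contra hxT
        exact hb x hx.1 hxT hx.2
      exact (Nat.mod_le _ _).trans (card_le_card this)
  choose S hS1 hS2 using hS
  have hSs : ∀ b, S b ⊆ s.filter (fun x => c x = b) := by
    intro b x hx
    have := hS1 b hx
    rw [mem_filter] at this ⊢
    exact ⟨hT this.1, this.2⟩
  have hcard : ∀ b, (s.filter (fun x => c x = b) \ S b).card
      = (s.filter (fun x => c x = b)).card / N * N := by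
    intro b
    rw [card_sdiff_of_subset (hSs b), hS2]
    have := Nat.div_add_mod (s.filter (fun x => c x = b)).card N
    rw [mul_comm] at this
    omega
  have he : ∀ b, Nonempty (Fin ((s.filter (fun x => c x = b)).card / N) × Fin N ≃
      ↥(s.filter (fun x => c x = b) \ S b)) := by
    intro b
    refine ⟨Fintype.equivOfCardEq ?_⟩
    rw [Fintype.card_prod, Fintype.card_fin, Fintype.card_fin, Fintype.card_coe, hcard]
  let e := fun b => Classical.choice (he b)
  let Γ := Σ b : ↥(s.image c), Fin ((s.filter (fun x => c x = b.1)).card / N)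
  let σ : Γ × Fin N → α := fun x => (e x.1.1.1 (x.1.2, x.2) : α)
  have hσmem : ∀ (b : ↥(s.image c)) (a) (i : Fin N),
      σ (⟨b, a⟩, i) ∈ s.filter (fun x => c x = b.1) \ S b.1 := fun b a i =>
    (e b.1 (a, i)).2
  have hσs : ∀ x, σ x ∈ s := by
    rintro ⟨⟨b, a⟩, i⟩
    have := hσmem b a i
    rw [mem_sdiff, mem_filter] at this
    exact this.1.1
  have hσc : ∀ (b : ↥(s.image c)) (a) (i : Fin N), c (σ (⟨b, a⟩, i)) = b.1 := by
    intro b a i
    have := hσmem b a i
    rw [mem_sdiff, mem_filter] at this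
    exact this.1.2
  refine ⟨Γ, inferInstance, σ, ?_, hσs, ?_, ?_, ?_⟩
  · rintro ⟨⟨b, a⟩, i⟩ ⟨⟨b', a'⟩, i'⟩ hxy
    have hb : b = b' := by
      apply Subtype.ext
      rw [← hσc b a i, ← hσc b' a' i', hxy]
    subst hb
    have h1 : e b.1 (a, i) = e b.1 (a', i') := Subtype.ext hxy
    have h2 := (e b.1).injective h1
    simp only [Prod.mk.injEq] at h2
    rw [h2.1, h2.2]
  · intro g hg hgT
    have hmem : g ∈ s.filter (fun x => c x = c g) \ S (c g) := by
      rw [mem_sdiff, mem_filter]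
      refine ⟨⟨hg, rfl⟩, fun hgS => hgT ?_⟩
      exact (mem_filter.1 (hS1 _ hgS)).1
    obtain ⟨y, hy⟩ := (e (c g)).surjective ⟨g, hmem⟩
    refine ⟨(⟨⟨c g, mem_image_of_mem c hg⟩, y.1⟩, y.2), ?_⟩
    exact congrArg Subtype.val hy
  · rintro ⟨b, a⟩ i j
    rw [hσc, hσc]
  · intro g hg
    have hpos : 0 < (T.filter (fun x => c x = c g)).card := lt_of_lt_of_le hN hg
    obtain ⟨x, hx⟩ := card_pos.1 hpos
    rw [mem_filter] at hx
    have hb : c g ∈ s.image c := by rw [← hx.2]; exact mem_image_of_mem c (hT hx.1)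
    have hle : (T.filter (fun x => c x = c g)).card ≤ (s.filter (fun x => c x = c g)).card :=
      card_le_card (filter_subset_filter _ hT)
    have h1 : 0 < (s.filter (fun x => c x = c g)).card / N := Nat.div_pos (hg.trans hle) hN
    exact ⟨⟨⟨c g, hb⟩, ⟨0, h1⟩⟩, fun i => hσc _ _ _⟩

end Pool.Agent.Lib.MP_2001a4_an
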