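import Mathlib

/-!
# Finite-dimensional C*-algebras: support projections, units, minimal projections

`R` is a finite-dimensional (a priori non-unital) C*-algebra.
-/

namespace Pool.Agent.Lib.MP_2001a4_an

open scoped CStarAlgebra

section Basic

variable {R : Type*} [NonUnitalCStarAlgebra R]

/-- `p` is a projection. -/
def Proj (p : R) : Prop := star p = p ∧ p * p = p

lemma eq_zero_of_star_mul_self {x : R} (h : star x * x = 0) : x = 0 :=
  CStarRing.star_mul_self_eq_zero_iff x |>.1 h

lemma eq_zero_of_mul_star_self {x : R} (h : x * star x = 0) : x = 0 :=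
  CStarRing.mul_star_self_eq_zero_iff x |>.1 h

/-- For a selfadjoint `z`, `z (z w) = 0` implies `z w = 0`. -/
lemma mul_eq_zero_of_mul_mul {z w : R} (hz : star z = z) (h : z * (z * w) = 0) : z * w = 0 := by
  apply eq_zero_of_star_mul_self
  rw [star_mul, hz, mul_assoc, h, mul_zero]

lemma Proj.sub {p q : R} (hp : Proj p) (hq : Proj q) (h : p * q = q) : Proj (p - q) := by
  have h' : q * p = q := by
    have := congrArg star h
    rwa [star_mul, hp.1, hq.1] at this
  refine ⟨by rw [star_sub, hp.1, hq.1], ?_⟩
  rw [sub_mul, mul_sub, mul_sub, hp.2, hq.2, h, h']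
  abel

lemma Proj.add {p q : R} (hp : Proj p) (hq : Proj q) (h : p * q = 0) : Proj (p + q) := by
  have h' : q * p = 0 := by
    have := congrArg star h
    rwa [star_mul, hp.1, hq.1, star_zero] at this
  refine ⟨by rw [star_add, hp.1, hq.1], ?_⟩
  rw [add_mul, mul_add, mul_add, hp.2, hq.2, h, h']
  abel

lemma Proj.mul_comm_eq {p q : R} (hp : Proj p) (hq : Proj q) (h : p * q = q) : q * p = q := by
  have := congrArg star h
  rwa [star_mul, hp.1, hq.1] at this

lemma proj_norm_sub_le {x w : R} (hw : Proj w) : ‖x - x * w‖ ≤ ‖x‖ := by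
  have h1 : (x - x * w) * star (x - x * w) = x * star (x - x * w) := by
    rw [star_sub, star_mul, hw.1, sub_mul, mul_sub, mul_sub]
    rw [mul_assoc x w (w * star x), ← mul_assoc w w (star x), hw.2]
    rw [mul_assoc x w (star x)]
    abel
  have h2 : ‖x - x * w‖ * ‖x - x * w‖ ≤ ‖x‖ * ‖x - x * w‖ := by
    calc ‖x - x * w‖ * ‖x - x * w‖ = ‖(x - x * w) * star (x - x * w)‖ := by
          rw [CStarRing.norm_self_mul_star]
      _ = ‖x * star (x - x * w)‖ := by rw [h1]
      _ ≤ ‖x‖ * ‖star (x - x * w)‖ := norm_mul_le _ _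
      _ = ‖x‖ * ‖x - x * w‖ := by rw [norm_star]
  rcases (norm_nonneg (x - x * w)).eq_or_lt with h | h
  · rw [← h]; exact norm_nonneg _
  · exact le_of_mul_le_mul_right h2 h

end Basic

section FinDim

variable {R : Type*} [NonUnitalCStarAlgebra R] [FiniteDimensional ℂ R]

/-- Support projection of a selfadjoint element. -/
lemma exists_support {z : R} (hz : star z = z) :
    ∃ e h : R, Proj e ∧ e = z * h ∧ z * e = z ∧ e * z = z := by
  classical
  set T : R →ₗ[ℂ] R := LinearMap.mulLeft ℂ z with hT
  set T3 : R →ₗ[ℂ] R := T ∘ₗ (T ∘ₗ T) with hT3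
  have hTa : ∀ y, T y = z * y := fun y => rfl
  have hT3a : ∀ y, T3 y = z * (z * (z * y)) := fun y => rfl
  have hker : LinearMap.ker T3 = LinearMap.ker T := by
    ext y
    rw [LinearMap.mem_ker, LinearMap.mem_ker, hTa, hT3a]
    constructor
    · intro h
      have h1 : z * (z * y) = 0 := mul_eq_zero_of_mul_mul hz h
      exact mul_eq_zero_of_mul_mul hz h1
    · intro h
      rw [h, mul_zero, mul_zero]
  have hle : LinearMap.range T3 ≤ LinearMap.range T := by
    rintro _ ⟨y, rfl⟩
    exact ⟨z * (z * y), rfl⟩
  have hfin : Module.finrank ℂ (LinearMap.range T3) = Module.finrank ℂ (LinearMap.range T) := by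
    have h1 := LinearMap.finrank_range_add_finrank_ker T3
    have h2 := LinearMap.finrank_range_add_finrank_ker T
    rw [hker] at h1
    omega
  have heq : LinearMap.range T3 = LinearMap.range T :=
    Submodule.eq_of_le_of_finrank_eq hle hfin
  have hmem : z * z ∈ LinearMap.range T3 := by
    rw [heq]; exact ⟨z, rfl⟩
  obtain ⟨h', hh'⟩ := hmem
  rw [hT3a] at hh'
  -- z = z (z h')
  have hz1 : z = z * (z * h') := by
    have ha : z * (z - z * (z * h')) = 0 := by
      rw [mul_sub, hh', sub_self]
    have : z - z * (z * h') = 0 := by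
      apply eq_zero_of_star_mul_self
      calc star (z - z * (z * h')) * (z - z * (z * h'))
          = (z - (star h' * z) * z) * (z - z * (z * h')) := by
            rw [star_sub, star_mul, star_mul, hz]
        _ = z * (z - z * (z * h')) - (star h' * z) * (z * (z - z * (z * h'))) := by
            rw [sub_mul, mul_assoc (star h' * z) z]
        _ = 0 := by rw [ha, mul_zero, sub_zero]
    exact sub_eq_zero.1 this
  refine ⟨z * h', h', ?_, rfl, hz1.symm, ?_⟩
  · have h1 : star (z * h') * z = z := by
      have := congrArg star hz1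
      rw [star_mul, hz] at this
      exact this.symm
    have h2 : star (z * h') * (z * h') = z * h' := by
      rw [← mul_assoc, h1]
    have h3 : star (z * h') = z * h' := by
      have := congrArg star h2
      rw [star_mul, star_star, h2] at this
      exact this.symm
    exact ⟨h3, by rw [h3] at h2; exact h2⟩
  · have h1 : star (z * h') * z = z := by
      have := congrArg star hz1
      rw [star_mul, hz] at this
      exact this.symm
    have h2 : star (z * h') * (z * h') = z * h' := by
      rw [← mul_assoc, h1]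
    have h3 : star (z * h') = z * h' := by
      have := congrArg star h2
      rw [star_mul, star_star, h2] at this
      exact this.symm
    rwa [h3] at h1

/-- Dimension of the right ideal `p R`. -/
noncomputable def rdim (p : R) : ℕ := Module.finrank ℂ (LinearMap.range (LinearMap.mulLeft ℂ p))

lemma rdim_lt {e p : R} (he : Proj e) (hpe : p * e = e) (hp : Proj p) (hne : e ≠ p) :
    rdim e < rdim p := by
  apply Submodule.finrank_lt_finrank_of_lt
  rw [lt_iff_le_and_ne]
  constructor
  · rintro _ ⟨y, rfl⟩
    refine ⟨e * y, ?_⟩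
    change p * (e * y) = e * y
    rw [← mul_assoc, hpe]
  · intro h
    have hp' : p ∈ LinearMap.range (LinearMap.mulLeft ℂ p) := ⟨p, hp.2⟩
    rw [← h] at hp'
    obtain ⟨y, hy⟩ := hp'
    have hy' : e * y = p := hy
    have h1 : e * p = p := by
      rw [← hy', ← mul_assoc, he.2]
    have h2 : e * p = e := hp.mul_comm_eq he hpe
    exact hne (h2.symm.trans h1)

/-- A finite-dimensional C*-algebra has a unit. -/
lemma exists_unit : ∃ u : R, Proj u ∧ (∀ x : R, u * x = x) ∧ (∀ x : R, x * u = x) := by
  have key : ∀ k : ℕ, ∃ u : R, Proj u ∧ ((∀ x : R, u * x = x) ∨ k ≤ rdim u) := by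
    intro k
    induction k with
    | zero => exact ⟨0, ⟨star_zero _, mul_zero _⟩, Or.inr (Nat.zero_le _)⟩
    | succ k ih =>
      obtain ⟨u, hu, h | h⟩ := ih
      · exact ⟨u, hu, Or.inl h⟩
      · by_cases hall : ∀ x : R, u * x = x
        · exact ⟨u, hu, Or.inl hall⟩
        · push Not at hall
          obtain ⟨x, hx⟩ := hall
          set y := x - u * x with hy
          have hy0 : y ≠ 0 := fun h0 => hx (sub_eq_zero.1 h0).symm
          have huy : u * y = 0 := by
            rw [hy, mul_sub, ← mul_assoc, hu.2, sub_self]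
          set z := y * star y with hz
          have hz0 : z ≠ 0 := fun h0 => hy0 (eq_zero_of_mul_star_self h0)
          have hzs : star z = z := by rw [hz, star_mul, star_star]
          have huz : u * z = 0 := by rw [hz, ← mul_assoc, huy, zero_mul]
          obtain ⟨e, h', he, heq, hze, hez⟩ := exists_support hzs
          have hue : u * e = 0 := by rw [heq, ← mul_assoc, huz, zero_mul]
          have hsum : Proj (u + e) := hu.add he hue
          have he0 : e ≠ 0 := by
            intro h0
            rw [h0, mul_zero] at hze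
            exact hz0 hze.symm
          refine ⟨u + e, hsum, Or.inr ?_⟩
          have : rdim u < rdim (u + e) := by
            apply rdim_lt hu ?_ hsum ?_
            · have heu : e * u = 0 := by
                have := congrArg star hue
                rwa [star_mul, hu.1, he.1, star_zero] at this
              rw [add_mul, hu.2, heu, add_zero]
            · intro h0
              exact he0 (by simpa using h0.symm)
          omega
  obtain ⟨u, hu, h | h⟩ := key (Module.finrank ℂ R + 1)
  · refine ⟨u, hu, h, fun x => ?_⟩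
    have := congrArg star (h (star x))
    rwa [star_mul, star_star, hu.1] at this
  · have := Submodule.finrank_le (LinearMap.range (LinearMap.mulLeft ℂ u))
    unfold rdim at h
    omega

/-- Minimal projections. -/
def MinProj (f : R) : Prop := Proj f ∧ f ≠ 0 ∧ ∀ x : R, ∃ c : ℂ, f * x * f = c • f

/-- Below every nonzero projection there is a minimal one. -/
lemma exists_minProj (p : R) (hp : Proj p) (hp0 : p ≠ 0) :
    ∃ f : R, MinProj f ∧ p * f = f := by
  have key : ∀ n : ℕ, ∀ p : R, rdim p = n → Proj p → p ≠ 0 → ∃ f : R, MinProj f ∧ p * f = f := by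
    intro n
    induction n using Nat.strong_induction_on with
    | _ n ih =>
      intro p hn hp hp0
      by_cases hmin : ∀ x : R, ∃ c : ℂ, p * x * p = c • p
      · exact ⟨p, ⟨hp, hp0, hmin⟩, hp.2⟩
      push Not at hmin
      obtain ⟨x, hx⟩ := hmin
      set V : Submodule ℂ R := LinearMap.range (LinearMap.mulLeft ℂ p) with hV
      have hpV : p ∈ V := ⟨p, hp.2⟩
      have hVmem : ∀ y ∈ V, p * y = y := by
        rintro _ ⟨y, rfl⟩
        change p * (p * y) = p * y
        rw [← mul_assoc, hp.2]
      have hL : ∀ y ∈ V, LinearMap.mulLeft ℂ (p * x * p) y ∈ V := by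
        intro y _
        refine ⟨x * p * y, ?_⟩
        change p * (x * p * y) = p * x * p * y
        simp only [mul_assoc]
      have : Nontrivial V := ⟨⟨⟨p, hpV⟩, 0, fun h => hp0 (congrArg Subtype.val h)⟩⟩
      obtain ⟨c, hc⟩ := Module.End.exists_eigenvalue
        ((LinearMap.mulLeft ℂ (p * x * p)).restrict hL)
      obtain ⟨y, hy⟩ := hc.exists_hasEigenvector
      have hy0 : (y : R) ≠ 0 := fun h => hy.2 (Subtype.ext h)
      have hyc : p * x * p * (y : R) = c • (y : R) := by
        have := congrArg Subtype.val hy.apply_eq_smul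
        simpa [mul_assoc] using this
      set z := p * x * p - c • p with hz
      have hz0 : z ≠ 0 := fun h => hx c (sub_eq_zero.1 h)
      have hzy : z * (y : R) = 0 := by
        rw [hz, sub_mul, hyc, smul_mul_assoc, hVmem _ y.2, sub_self]
      set w := star z * z with hw
      have hw0 : w ≠ 0 := fun h => hz0 (eq_zero_of_star_mul_self h)
      have hws : star w = w := by rw [hw, star_mul, star_star]
      have hwy : w * (y : R) = 0 := by rw [hw, mul_assoc, hzy, mul_zero]
      have hzp : z * p = z := by
        rw [hz, sub_mul, smul_mul_assoc, hp.2, mul_assoc (p * x) p p, hp.2]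
      have hpw : p * w = w := by
        have h1 : w * p = w := by rw [hw, mul_assoc, hzp]
        have := congrArg star h1
        rwa [star_mul, hws, hp.1] at this
      obtain ⟨e, h', he, heq, hwe, hew⟩ := exists_support hws
      have hpe : p * e = e := by rw [heq, ← mul_assoc, hpw]
      have he0 : e ≠ 0 := by
        intro h0
        rw [h0, mul_zero] at hwe
        exact hw0 hwe.symm
      have hey : e * (y : R) = 0 := by
        have h1 : e = star h' * w := by
          have := congrArg star heq
          rw [star_mul, hws, he.1] at this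
          exact this
        rw [h1, mul_assoc, hwy, mul_zero]
      have hne : e ≠ p := by
        intro h0
        rw [h0, hVmem _ y.2] at hey
        exact hy0 hey
      obtain ⟨f, hf, hef⟩ := ih (rdim e) (by rw [← hn]; exact rdim_lt he hpe hp hne) e rfl he he0
      exact ⟨f, hf, by rw [← hef, ← mul_assoc, hpe]⟩
  exact key _ p rfl hp hp0

/-- Every projection is a finite sum of orthogonal minimal projections. -/
lemma exists_decomp (p : R) (hp : Proj p) :
    ∃ s : Finset R, (∀ f ∈ s, MinProj f) ∧ (∀ f ∈ s, ∀ g ∈ s, f ≠ g → f * g = 0) ∧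
      ∑ f ∈ s, f = p := by
  classical
  have key : ∀ n : ℕ, ∀ p : R, rdim p = n → Proj p →
      ∃ s : Finset R, (∀ f ∈ s, MinProj f) ∧ (∀ f ∈ s, ∀ g ∈ s, f ≠ g → f * g = 0) ∧
        ∑ f ∈ s, f = p := by
    intro n
    induction n using Nat.strong_induction_on with
    | _ n ih =>
      intro p hn hp
      by_cases hp0 : p = 0
      · exact ⟨∅, by simp, by simp, by simp [hp0]⟩
      obtain ⟨f, hf, hpf⟩ := exists_minProj p hp hp0
      have hp' : Proj (p - f) := hp.sub hf.1 hpf
      have hfp : f * p = f := hp.mul_comm_eq hf.1 hpf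
      have hlt : rdim (p - f) < rdim p := by
        apply rdim_lt hp' ?_ hp ?_
        · rw [mul_sub, hp.2, hpf]
        · intro h
          exact hf.2.1 (by simpa using h)
      obtain ⟨s, hs1, hs2, hs3⟩ := ih _ (by rw [← hn]; exact hlt) (p - f) rfl hp'
      have hgp : ∀ g ∈ s, g * (p - f) = g := by
        intro g hg
        rw [← hs3, Finset.mul_sum, Finset.sum_eq_single g]
        · exact (hs1 g hg).1.2
        · intro h hh hne
          exact hs2 g hg h hh (Ne.symm hne)
        · intro h; exact absurd hg h
      have hgf : ∀ g ∈ s, g * f = 0 := by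
        intro g hg
        rw [← hgp g hg, mul_assoc, sub_mul, hpf, hf.1.2, sub_self, mul_zero]
      have hfg : ∀ g ∈ s, f * g = 0 := by
        intro g hg
        have := congrArg star (hgf g hg)
        rwa [star_mul, hf.1.1, (hs1 g hg).1.1, star_zero] at this
      have hfs : f ∉ s := by
        intro h
        have := hgf f h
        rw [hf.1.2] at this
        exact hf.2.1 this
      refine ⟨insert f s, ?_, ?_, ?_⟩
      · intro g hg
        rcases Finset.mem_insert.1 hg with rfl | hg
        · exact hf
        · exact hs1 g hg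
      · intro g hg h hh hne
        rcases Finset.mem_insert.1 hg with hg' | hg'
        · rcases Finset.mem_insert.1 hh with hh' | hh'
          · exact absurd (hg'.trans hh'.symm) hne
          · rw [hg']; exact hfg h hh'
        · rcases Finset.mem_insert.1 hh with hh' | hh'
          · rw [hh']; exact hgf g hg'
          · exact hs2 g hg' h hh' hne
      · rw [Finset.sum_insert hfs, hs3]; abel
  exact key _ p rfl hp

/-- If `w* w = c g` for a nonzero projection `g` and `w ≠ 0`, then `c` is a positive real. -/
lemma pos_of_star_mul_self {R : Type*} [NonUnitalCStarAlgebra R] {w g : R} {c : ℂ} (hg : Proj g)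
    (hg0 : g ≠ 0) (hw0 : w ≠ 0) (h : star w * w = c • g) : ∃ r : ℝ, 0 < r ∧ c = r := by
  have hc0 : c ≠ 0 := by
    rintro rfl
    rw [zero_smul] at h
    exact hw0 (eq_zero_of_star_mul_self h)
  have hconj : (starRingEnd ℂ) c = c := by
    have h1 := congrArg star h
    rw [star_mul, star_star, star_smul, hg.1, h] at h1
    have h2 : (c - (starRingEnd ℂ) c) • g = 0 := by
      rw [sub_smul]; exact sub_eq_zero.2 h1
    rcases smul_eq_zero.1 h2 with h3 | h3
    · exact (sub_eq_zero.1 h3).symm
    · exact absurd h3 hg0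
  obtain ⟨r, hr⟩ := Complex.conj_eq_iff_real.1 hconj
  refine ⟨r, ?_, hr⟩
  by_contra hneg
  push Not at hneg
  let _ : PartialOrder R := CStarAlgebra.spectralOrder R
  have _ : StarOrderedRing R := CStarAlgebra.spectralOrderedRing R
  have h1 : 0 ≤ star w * w := star_mul_self_nonneg w
  have h2 : 0 ≤ star (((Real.sqrt (-r) : ℝ) : ℂ) • g) * (((Real.sqrt (-r) : ℝ) : ℂ) • g) :=
    star_mul_self_nonneg _
  have h3 : star (((Real.sqrt (-r) : ℝ) : ℂ) • g) * (((Real.sqrt (-r) : ℝ) : ℂ) • g)
      = ((-r : ℝ) : ℂ) • g := by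
    rw [star_smul, hg.1, smul_mul_smul_comm, hg.2]
    congr 1
    rw [Complex.star_def, Complex.conj_ofReal, ← Complex.ofReal_mul,
      Real.mul_self_sqrt (by linarith)]
  rw [h3] at h2
  have h4 : star w * w + ((-r : ℝ) : ℂ) • g = 0 := by
    rw [h, hr, ← add_smul, ← Complex.ofReal_add]
    simp
  have h5 := (add_eq_zero_iff_of_nonneg h1 h2).1 h4
  exact hw0 (eq_zero_of_star_mul_self h5.1)

omit [FiniteDimensional ℂ R] in
lemma mul_left_of_mul_star {v f : R} (hf : Proj f) (h : v * star v = f) : f * v = v := by
  have : f * v - v = 0 := by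
    apply eq_zero_of_mul_star_self
    rw [star_sub, star_mul, hf.1, sub_mul, mul_sub, mul_sub, h]
    rw [mul_assoc f v (star v * f), ← mul_assoc v (star v) f, h, mul_assoc f v (star v), h, hf.2,
      hf.2]
    abel
  exact sub_eq_zero.1 this

omit [FiniteDimensional ℂ R] in
lemma mul_right_of_star_mul {v g : R} (hg : Proj g) (h : star v * v = g) : v * g = v := by
  have h1 : g * star v = star v := by
    apply mul_left_of_mul_star hg
    rw [star_star, h]
  have := congrArg star h1
  rwa [star_mul, star_star, hg.1] at this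

omit [FiniteDimensional ℂ R] in
/-- Minimal projections `f`, `g` with `f R g ≠ 0` are equivalent. -/
lemma exists_partialIsometry {f g x : R} (hf : MinProj f) (hg : MinProj g) (hx : f * x * g ≠ 0) :
    ∃ v : R, v * star v = f ∧ star v * v = g := by
  set w := f * x * g with hw
  obtain ⟨c, hc⟩ := hg.2.2 (star x * f * x)
  have h1 : star w * w = c • g := by
    rw [← hc, hw]
    simp only [star_mul, hf.1.1, hg.1.1]
    simp only [mul_assoc]
    rw [← mul_assoc f f (x * g), hf.1.2]
  obtain ⟨r, hr, hcr⟩ := pos_of_star_mul_self hg.1 hg.2.1 hx h1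
  obtain ⟨d, hd⟩ := hf.2.2 (x * g * star x)
  have h2 : w * star w = d • f := by
    rw [← hd, hw]
    simp only [star_mul, hf.1.1, hg.1.1]
    simp only [mul_assoc]
    rw [← mul_assoc g g, hg.1.2]
  have hfw : f * w = w := by
    rw [hw]; simp only [← mul_assoc]; rw [hf.1.2]
  have hwg : w * g = w := by
    rw [hw]; rw [mul_assoc (f * x) g g, hg.1.2]
  have hdc : d = c := by
    have h3 : w * (star w * w) = c • w := by rw [h1, mul_smul_comm, hwg]
    have h4 : w * star w * w = d • w := by rw [h2, smul_mul_assoc, hfw]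
    rw [mul_assoc, h3] at h4
    have h5 : (c - d) • w = 0 := by rw [sub_smul, h4, sub_self]
    rcases smul_eq_zero.1 h5 with h6 | h6
    · exact (sub_eq_zero.1 h6).symm
    · exact absurd h6 hx
  have hs : ((Real.sqrt r : ℝ) : ℂ) ≠ 0 := by
    exact_mod_cast (Real.sqrt_pos.2 hr).ne'
  have hsq : (((Real.sqrt r : ℝ) : ℂ))⁻¹ * (((Real.sqrt r : ℝ) : ℂ))⁻¹ * c = 1 := by
    rw [hcr, ← mul_inv, ← Complex.ofReal_mul, Real.mul_self_sqrt hr.le]
    exact inv_mul_cancel₀ (by exact_mod_cast hr.ne')
  have hst : star ((((Real.sqrt r : ℝ) : ℂ))⁻¹) = (((Real.sqrt r : ℝ) : ℂ))⁻¹ := by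
    rw [Complex.star_def, map_inv₀, Complex.conj_ofReal]
  refine ⟨(((Real.sqrt r : ℝ) : ℂ))⁻¹ • w, ?_, ?_⟩
  · rw [star_smul, hst, smul_mul_smul_comm, h2, hdc, smul_smul, hsq, one_smul]
  · rw [star_smul, hst, smul_mul_smul_comm, h1, smul_smul, hsq, one_smul]

omit [FiniteDimensional ℂ R] in
/-- Coherent choice of representatives and partial isometries. -/
lemma exists_reps : ∃ rep v : R → R, (∀ f : R, MinProj f → MinProj (rep f) ∧
      v f * star (v f) = f ∧ star (v f) * v f = rep f) ∧
    (∀ f g : R, MinProj f → MinProj g → rep f ≠ rep g → ∀ x, rep f * x * rep g = 0) ∧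
    (∀ f g : R, MinProj f → MinProj g → (∃ x, f * x * g ≠ 0) → rep f = rep g) := by
  classical
  let S := {f : R // MinProj f}
  have htrans : ∀ f g h : R, MinProj f → MinProj g → MinProj h → (∃ x, f * x * g ≠ 0) →
      (∃ x, g * x * h ≠ 0) → (∃ x, f * x * h ≠ 0) := by
    rintro f g h hf hg hh ⟨x, hx⟩ ⟨y, hy⟩
    obtain ⟨v, hv1, hv2⟩ := exists_partialIsometry hf hg hx
    obtain ⟨w, hw1, hw2⟩ := exists_partialIsometry hg hh hy
    refine ⟨v * w, ?_⟩
    have h1 : f * v = v := mul_left_of_mul_star hf.1 hv1
    have h2 : w * h = w := mul_right_of_star_mul hh.1 hw2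
    have h3 : v * g = v := mul_right_of_star_mul hg.1 hv2
    rw [mul_assoc, mul_assoc v w h, h2, ← mul_assoc, h1]
    intro h0
    have h4 : v * w * star (v * w) = f := by
      rw [star_mul, mul_assoc, ← mul_assoc w, hw1, ← mul_assoc, h3, hv1]
    rw [h0, zero_mul] at h4
    exact hf.2.1 h4.symm
  let st : Setoid S :=
    { r := fun f g => ∃ x, f.1 * x * g.1 ≠ 0
      iseqv :=
        { refl := fun f => ⟨f.1, by rw [f.2.1.2, f.2.1.2]; exact f.2.2.1⟩
          symm := by
            rintro f g ⟨x, hx⟩
            refine ⟨star x, fun h0 => hx ?_⟩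
            have := congrArg star h0
            simpa [star_mul, f.2.1.1, g.2.1.1, mul_assoc] using this
          trans := by
            rintro f g h h1 h2
            exact htrans _ _ _ f.2 g.2 h.2 h1 h2 } }
  let repS : S → S := fun f => (Quotient.mk st f).out
  have hrepS : ∀ f : S, ∃ x, f.1 * x * (repS f).1 ≠ 0 := by
    intro f
    have h1 : (Quotient.mk st (repS f)) = Quotient.mk st f := Quotient.out_eq _
    exact Quotient.exact h1.symm
  have hpi : ∀ f : S, ∃ v : R, v * star v = f.1 ∧ star v * v = (repS f).1 := by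
    intro f
    obtain ⟨x, hx⟩ := hrepS f
    exact exists_partialIsometry f.2 (repS f).2 hx
  choose vS hvS1 hvS2 using hpi
  let rep : R → R := fun f => if h : MinProj f then (repS ⟨f, h⟩).1 else 0
  let v : R → R := fun f => if h : MinProj f then vS ⟨f, h⟩ else 0
  have hrep : ∀ (f : R) (h : MinProj f), rep f = (repS ⟨f, h⟩).1 := fun f h => dif_pos h
  have hv : ∀ (f : R) (h : MinProj f), v f = vS ⟨f, h⟩ := fun f h => dif_pos h
  have hrel : ∀ f g : R, MinProj f → MinProj g → (∃ x, f * x * g ≠ 0) → rep f = rep g := by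
    intro f g hf hg h
    rw [hrep f hf, hrep g hg]
    have : Quotient.mk st ⟨f, hf⟩ = Quotient.mk st ⟨g, hg⟩ := Quotient.sound h
    simp only [repS, this]
  refine ⟨rep, v, ?_, ?_, hrel⟩
  · intro f hf
    rw [hrep f hf, hv f hf]
    exact ⟨(repS _).2, hvS1 _, hvS2 _⟩
  · intro f g hf hg hne x
    by_contra hx
    apply hne
    apply hrel f g hf hg
    have h1 := hrepS ⟨f, hf⟩
    have h2 := hrepS ⟨g, hg⟩
    rw [hrep f hf, hrep g hg] at hx
    refine htrans f _ g hf (repS ⟨f, hf⟩).2 hg h1 (htrans _ _ _ (repS ⟨f, hf⟩).2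
      (repS ⟨g, hg⟩).2 hg ⟨x, hx⟩ ?_)
    obtain ⟨y, hy⟩ := h2
    refine ⟨star y, fun h0 => hy ?_⟩
    have := congrArg star h0
    simpa [star_mul, hg.1.1, (repS ⟨g, hg⟩).2.1.1, mul_assoc] using this

end FinDim

end Pool.Agent.Lib.MP_2001a4_an
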