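import Mathlib
import Pool.Agent.Lib.MP_2001a4_an.FinDim
import Pool.Agent.Lib.MP_2001a4_an.Combi

/-!
# Splitting off a full `N`-divisible part of a projection in a finite-dimensional C*-algebra
-/

namespace Pool.Agent.Lib.MP_2001a4_an

open Finset

/-- The star homomorphism attached to a system of matrix units. -/
noncomputable def matHom {R : Type*} [NonUnitalCStarAlgebra R] {N : ℕ} (E : Fin N → Fin N → R)
    (hE : ∀ i j k l, E i j * E k l = if j = k then E i l else 0)
    (hs : ∀ i j, star (E i j) = E j i) : Matrix (Fin N) (Fin N) ℂ →⋆ₙₐ[ℂ] R where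
  toFun M := ∑ i, ∑ j, M i j • E i j
  map_smul' c M := by
    simp only [Matrix.smul_apply, smul_eq_mul, mul_smul, Finset.smul_sum, MonoidHom.id_apply]
  map_zero' := by simp
  map_add' M M' := by
    simp only [Matrix.add_apply, add_smul, Finset.sum_add_distrib]
  map_mul' M M' := by
    have h1 : ∀ i j : Fin N, (M i j • E i j) * (∑ k, ∑ l, M' k l • E k l)
        = ∑ l, (M i j * M' j l) • E i l := by
      intro i j
      rw [Finset.mul_sum, Finset.sum_eq_single j]
      · rw [Finset.mul_sum]
        refine Finset.sum_congr rfl fun l _ => ?_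
        rw [smul_mul_smul_comm, hE, if_pos rfl]
      · intro k _ hk
        rw [Finset.mul_sum]
        refine Finset.sum_eq_zero fun l _ => ?_
        rw [smul_mul_smul_comm, hE, if_neg (Ne.symm hk), smul_zero]
      · intro h; exact absurd (Finset.mem_univ _) h
    rw [Finset.sum_mul]
    refine Finset.sum_congr rfl fun i _ => ?_
    rw [Finset.sum_mul]
    simp only [h1]
    rw [Finset.sum_comm]
    refine Finset.sum_congr rfl fun l _ => ?_
    rw [Matrix.mul_apply, Finset.sum_smul]
  map_star' M := by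
    simp only [star_sum, star_smul, hs, Matrix.star_apply]
    rw [Finset.sum_comm]

lemma matHom_apply {R : Type*} [NonUnitalCStarAlgebra R] {N : ℕ} (E : Fin N → Fin N → R)
    (hE : ∀ i j k l, E i j * E k l = if j = k then E i l else 0)
    (hs : ∀ i j, star (E i j) = E j i) (M : Matrix (Fin N) (Fin N) ℂ) :
    matHom E hE hs M = ∑ i, ∑ j, M i j • E i j := rfl

lemma matHom_one {R : Type*} [NonUnitalCStarAlgebra R] {N : ℕ} (E : Fin N → Fin N → R)
    (hE : ∀ i j k l, E i j * E k l = if j = k then E i l else 0)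
    (hs : ∀ i j, star (E i j) = E j i) : matHom E hE hs 1 = ∑ i, E i i := by
  rw [matHom_apply]
  refine Finset.sum_congr rfl fun i _ => ?_
  rw [Finset.sum_eq_single i]
  · simp
  · intro j _ hj
    rw [Matrix.one_apply_ne (Ne.symm hj), zero_smul]
  · intro h; exact absurd (Finset.mem_univ _) h

lemma matHom_compress {R : Type*} [NonUnitalCStarAlgebra R] {N : ℕ} (E : Fin N → Fin N → R)
    (hEE : ∀ i j k l, E i j * E k l = if j = k then E i l else 0)
    (hEs : ∀ i j, star (E i j) = E j i) (M : Matrix (Fin N) (Fin N) ℂ) (i0 i j : Fin N) :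
    E i0 i * matHom E hEE hEs M * E j i0 = M i j • E i0 i0 := by
  rw [matHom_apply, Finset.mul_sum, Finset.sum_mul, Finset.sum_eq_single i]
  · rw [Finset.mul_sum, Finset.sum_mul, Finset.sum_eq_single j]
    · rw [mul_smul_comm, smul_mul_assoc, hEE, if_pos rfl, hEE, if_pos rfl]
    · intro l _ hl
      rw [mul_smul_comm, smul_mul_assoc, hEE, if_pos rfl, hEE, if_neg hl, smul_zero]
    · intro h; exact absurd (Finset.mem_univ _) h
  · intro k _ hk
    rw [Finset.mul_sum, Finset.sum_mul]
    refine Finset.sum_eq_zero fun l _ => ?_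
    rw [mul_smul_comm, hEE, if_neg (Ne.symm hk), smul_zero, zero_mul]
  · intro h; exact absurd (Finset.mem_univ _) h

section

variable {R : Type*} [NonUnitalCStarAlgebra R] [FiniteDimensional ℂ R]

/-- Core lemma. -/
lemma core (N : ℕ) (hN : 0 < N) (r₀ q : R) (t : Fin N → R) (hr₀ : Proj r₀) (hq : Proj q)
    (ht : ∀ k, Proj (t k)) (hrt : ∀ k, r₀ * t k = 0) (htt : ∀ k l, k ≠ l → t k * t l = 0)
    (hr₀q : r₀ * q = r₀)
    (hD : ∀ k, ∀ x : R, (∀ y : R, x * y * t k = 0) → x * q = 0) :
    ∃ θ : Matrix (Fin N) (Fin N) ℂ →⋆ₙₐ[ℂ] R,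
      θ 1 * (r₀ + ∑ k, t k) = θ 1 ∧ r₀ * θ 1 = r₀ ∧
      ∀ J : Submodule ℂ R, (∀ a : R, ∀ x ∈ J, a * x ∈ J) → (∀ a : R, ∀ x ∈ J, x * a ∈ J) →
        ∀ M, M ≠ 0 → θ M ∈ J → q ∈ J := by
  classical
  obtain ⟨rep, v, hrv, hrep0, hrepeq⟩ := exists_reps (R := R)
  obtain ⟨s₀, hs₀min, hs₀orth, hs₀sum⟩ := exists_decomp r₀ hr₀
  have hdec := fun k => exists_decomp (t k) (ht k)
  choose S hSmin hSorth hSsum using hdec
  -- elements of a decomposition lie under the projection
  have hunder : ∀ (p : R) (s : Finset R), (∀ f ∈ s, MinProj f) →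
      (∀ f ∈ s, ∀ g ∈ s, f ≠ g → f * g = 0) → ∑ f ∈ s, f = p → ∀ f ∈ s, f * p = f ∧ p * f = f := by
    intro p s h1 h2 h3 f hf
    constructor
    · rw [← h3, Finset.mul_sum, Finset.sum_eq_single f]
      · exact (h1 f hf).1.2
      · intro g hg hne
        exact h2 f hf g hg (Ne.symm hne)
      · intro h; exact absurd hf h
    · rw [← h3, Finset.sum_mul, Finset.sum_eq_single f]
      · exact (h1 f hf).1.2
      · intro g hg hne
        exact h2 g hg f hf hne
      · intro h; exact absurd hf h
  have hu₀ := hunder r₀ s₀ hs₀min hs₀orth hs₀sum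
  have hu := fun k => hunder (t k) (S k) (hSmin k) (hSorth k) (hSsum k)
  have htr : ∀ k, t k * r₀ = 0 := by
    intro k
    have := congrArg star (hrt k)
    rwa [star_mul, hr₀.1, (ht k).1, star_zero] at this
  -- cross orthogonality
  have hx1 : ∀ f ∈ s₀, ∀ k, ∀ g ∈ S k, f * g = 0 := by
    intro f hf k g hg
    rw [← (hu₀ f hf).1, ← (hu k g hg).2, mul_assoc, ← mul_assoc r₀, hrt, zero_mul, mul_zero]
  have hx2 : ∀ f ∈ s₀, ∀ k, ∀ g ∈ S k, g * f = 0 := by
    intro f hf k g hg
    rw [← (hu₀ f hf).2, ← (hu k g hg).1, mul_assoc, ← mul_assoc (t k), htr, zero_mul, mul_zero]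
  have hx3 : ∀ k l, k ≠ l → ∀ f ∈ S k, ∀ g ∈ S l, f * g = 0 := by
    intro k l hkl f hf g hg
    rw [← (hu k f hf).1, ← (hu l g hg).2, mul_assoc, ← mul_assoc (t k), htt k l hkl, zero_mul,
      mul_zero]
  set T : Finset R := Finset.univ.biUnion S with hT
  set s : Finset R := s₀ ∪ T with hs
  have hTs : T ⊆ s := subset_union_right
  have hmemT : ∀ f, f ∈ T ↔ ∃ k, f ∈ S k := by
    intro f; rw [hT, mem_biUnion]; simp
  have hmin : ∀ f ∈ s, MinProj f := by
    intro f hf
    rcases mem_union.1 hf with hf | hf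
    · exact hs₀min f hf
    · obtain ⟨k, hk⟩ := (hmemT f).1 hf
      exact hSmin k f hk
  have horth : ∀ f ∈ s, ∀ g ∈ s, f ≠ g → f * g = 0 := by
    intro f hf g hg hne
    rcases mem_union.1 hf with hf | hf
    · rcases mem_union.1 hg with hg | hg
      · exact hs₀orth f hf g hg hne
      · obtain ⟨k, hk⟩ := (hmemT g).1 hg
        exact hx1 f hf k g hk
    · obtain ⟨k, hk⟩ := (hmemT f).1 hf
      rcases mem_union.1 hg with hg | hg
      · exact hx2 g hg k f hk
      · obtain ⟨l, hl⟩ := (hmemT g).1 hg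
        by_cases hkl : k = l
        · subst hkl; exact hSorth k f hk g hl hne
        · exact hx3 k l hkl f hk g hl
  -- colours under q are met by every S k
  have hbig : ∀ f, MinProj f → f * q ≠ 0 →
      N ≤ (T.filter (fun x => rep x = rep f)).card := by
    intro f hf hfq
    have h1 : ∀ k, ∃ g ∈ S k, rep g = rep f := by
      intro k
      by_contra hcon
      push Not at hcon
      apply hfq
      apply hD k f
      intro y
      rw [← hSsum k, Finset.mul_sum]
      refine Finset.sum_eq_zero fun g hg => ?_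
      by_contra h0
      exact hcon g hg (hrepeq f g hf (hSmin k g hg) ⟨y, h0⟩).symm
    choose g hg1 hg2 using h1
    have hinj : Function.Injective g := by
      intro k l hkl
      by_contra hne
      have h2 := hx3 k l hne (g k) (hg1 k) (g l) (hg1 l)
      rw [← hkl, (hSmin k _ (hg1 k)).1.2] at h2
      exact (hSmin k _ (hg1 k)).2.1 h2
    calc N = (Finset.univ : Finset (Fin N)).card := by simp
      _ = (Finset.univ.image g).card := (card_image_of_injective _ hinj).symm
      _ ≤ _ := by
        apply card_le_card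
        intro x hx
        obtain ⟨k, _, rfl⟩ := mem_image.1 hx
        rw [mem_filter]
        exact ⟨(hmemT _).2 ⟨k, hg1 k⟩, hg2 k⟩
  obtain ⟨Γ, _, σ, hσinj, hσs, hσcov, hσc, hσfull⟩ := combi s T hTs rep N hN (by
    intro g hg hgT
    apply hbig g (hmin g hg)
    have hg0 : g ∈ s₀ := by
      rcases mem_union.1 hg with h | h
      · exact h
      · exact absurd h hgT
    rw [← (hu₀ g hg0).1, mul_assoc, hr₀q, (hu₀ g hg0).1]
    exact (hmin g hg).2.1)
  -- the partial isometries
  have hσmin : ∀ x, MinProj (σ x) := fun x => hmin _ (hσs x)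
  have hσorth : ∀ x y, x ≠ y → σ x * σ y = 0 := fun x y hxy =>
    horth _ (hσs x) _ (hσs y) (fun h => hxy (hσinj h))
  let w : Γ × Fin N → R := fun x => v (σ x)
  have hw1 : ∀ x, w x * star (w x) = σ x := fun x => (hrv _ (hσmin x)).2.1
  have hw2 : ∀ x, star (w x) * w x = rep (σ x) := fun x => (hrv _ (hσmin x)).2.2
  have hw3 : ∀ x, σ x * w x = w x := fun x => mul_left_of_mul_star (hσmin x).1 (hw1 x)
  have hw4 : ∀ x, w x * rep (σ x) = w x := fun x =>
    mul_right_of_star_mul (hrv _ (hσmin x)).1.1 (hw2 x)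
  have hw5 : ∀ x, star (w x) * σ x = star (w x) := by
    intro x
    have := congrArg star (hw3 x)
    rwa [star_mul, (hσmin x).1.1] at this
  have hw6 : ∀ x y, x ≠ y → star (w x) * w y = 0 := by
    intro x y hxy
    rw [← hw5 x, ← hw3 y, mul_assoc, ← mul_assoc (σ x), hσorth x y hxy, zero_mul, mul_zero]
  let E : Fin N → Fin N → R := fun i j => ∑ γ, w (γ, i) * star (w (γ, j))
  have hEs : ∀ i j, star (E i j) = E j i := by
    intro i j
    simp only [E, star_sum, star_mul, star_star]
  have hEE : ∀ i j k l, E i j * E k l = if j = k then E i l else 0 := by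
    intro i j k l
    simp only [E]
    rw [Finset.sum_mul]
    have h1 : ∀ γ : Γ, w (γ, i) * star (w (γ, j)) * (∑ γ', w (γ', k) * star (w (γ', l)))
        = if j = k then w (γ, i) * star (w (γ, l)) else 0 := by
      intro γ
      rw [Finset.mul_sum]
      have h2 : ∀ γ', w (γ, i) * star (w (γ, j)) * (w (γ', k) * star (w (γ', l)))
          = w (γ, i) * (star (w (γ, j)) * w (γ', k)) * star (w (γ', l)) := by
        intro γ'; simp only [mul_assoc]
      simp only [h2]
      split_ifs with hjk
      · subst hjk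
        rw [Finset.sum_eq_single γ]
        · rw [hw2, ← hσc γ i j, hw4]
        · intro γ' _ hne
          rw [hw6 (γ, j) (γ', j) (fun h => hne (congrArg Prod.fst h).symm), mul_zero, zero_mul]
        · intro h; exact absurd (Finset.mem_univ _) h
      · refine Finset.sum_eq_zero fun γ' _ => ?_
        rw [hw6 (γ, j) (γ', k) (fun h => hjk (congrArg Prod.snd h)), mul_zero, zero_mul]
    simp only [h1]
    split_ifs with hjk
    · rfl
    · simp
  have hone : matHom E hEE hEs 1 = ∑ x, σ x := by
    rw [matHom_one, Fintype.sum_prod_type_right]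
    refine Finset.sum_congr rfl fun i _ => ?_
    refine Finset.sum_congr rfl fun γ _ => ?_
    exact hw1 _
  have hsum : ∑ f ∈ s, f = r₀ + ∑ k, t k := by
    rw [hs, Finset.sum_union, hs₀sum, hT, Finset.sum_biUnion]
    · congr 1
      exact Finset.sum_congr rfl fun k _ => hSsum k
    · intro k _ l _ hkl
      rw [Function.onFun, Finset.disjoint_left]
      intro f hf hf'
      have := hx3 k l hkl f hf f hf'
      rw [(hSmin k f hf).1.2] at this
      exact (hSmin k f hf).2.1 this
    · rw [Finset.disjoint_left]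
      intro f hf hf'
      obtain ⟨k, hk⟩ := (hmemT f).1 hf'
      have := hx1 f hf k f hk
      rw [(hSmin k f hk).1.2] at this
      exact (hSmin k f hk).2.1 this
  refine ⟨matHom E hEE hEs, ?_, ?_, ?_⟩
  · rw [hone, ← hsum, Finset.sum_mul]
    refine Finset.sum_congr rfl fun x _ => ?_
    rw [Finset.mul_sum, Finset.sum_eq_single (σ x)]
    · exact (hσmin x).1.2
    · intro g hg hne
      exact horth _ (hσs x) g hg (Ne.symm hne)
    · intro h; exact absurd (hσs x) h
  · have hcov : ∀ f ∈ s₀, f * ∑ x, σ x = f := by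
      intro f hf
      have hfs : f ∈ s := mem_union_left _ hf
      have hfT : f ∉ T := by
        intro hf'
        obtain ⟨k, hk⟩ := (hmemT f).1 hf'
        have := hx1 f hf k f hk
        rw [(hSmin k f hk).1.2] at this
        exact (hSmin k f hk).2.1 this
      obtain ⟨x, hx⟩ := hσcov f hfs hfT
      rw [Finset.mul_sum, Finset.sum_eq_single x]
      · rw [hx]; exact (hmin f hfs).1.2
      · intro y _ hne
        rw [← hx]; exact hσorth x y (Ne.symm hne)
      · intro h; exact absurd (Finset.mem_univ _) h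
    rw [hone, ← hs₀sum, Finset.sum_mul]
    exact Finset.sum_congr rfl hcov
  · intro J hJl hJr M hM hθM
    obtain ⟨i, j, hij⟩ : ∃ i j, M i j ≠ 0 := by
      by_contra hcon
      push Not at hcon
      exact hM (Matrix.ext hcon)
    -- E 0 0 ∈ J
    let i0 : Fin N := ⟨0, hN⟩
    have hcomp : E i0 i * matHom E hEE hEs M * E j i0 = M i j • E i0 i0 :=
      matHom_compress E hEE hEs M i0 i j
    have hE0 : E i0 i0 ∈ J := by
      have h1 : M i j • E i0 i0 ∈ J := by
        rw [← hcomp]; exact hJr _ _ (hJl _ _ hθM)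
      have h2 := J.smul_mem (M i j)⁻¹ h1
      rwa [smul_smul, inv_mul_cancel₀ hij, one_smul] at h2
    have hE00 : E i0 i0 = ∑ γ, σ (γ, i0) :=
      Finset.sum_congr rfl fun γ _ => hw1 _
    have hσJ : ∀ γ, σ (γ, i0) ∈ J := by
      intro γ
      have h1 : σ (γ, i0) * E i0 i0 = σ (γ, i0) := by
        rw [hE00, Finset.mul_sum, Finset.sum_eq_single γ]
        · exact (hσmin _).1.2
        · intro γ' _ hne
          exact hσorth _ _ (fun h => hne (congrArg Prod.fst h).symm)
        · intro h; exact absurd (Finset.mem_univ _) h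
      rw [← h1]
      exact hJl _ _ hE0
    -- decompose q
    obtain ⟨s₁, hs₁min, hs₁orth, hs₁sum⟩ := exists_decomp q hq
    have hu₁ := hunder q s₁ hs₁min hs₁orth hs₁sum
    rw [← hs₁sum]
    refine J.sum_mem fun f hf => ?_
    have hfmin := hs₁min f hf
    have hfq : f * q ≠ 0 := by rw [(hu₁ f hf).1]; exact hfmin.2.1
    obtain ⟨γ, hγ⟩ := hσfull f (hbig f hfmin hfq)
    have hrf := hrv f hfmin
    have h1 : v f * rep f = v f := mul_right_of_star_mul hrf.1.1 hrf.2.2
    have h2 : f = v f * star (w (γ, i0)) * σ (γ, i0) * (w (γ, i0) * star (v f)) := by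
      have h3 : v f * star (w (γ, i0)) * σ (γ, i0) * (w (γ, i0) * star (v f))
          = v f * (star (w (γ, i0)) * (σ (γ, i0) * w (γ, i0))) * star (v f) := by
        simp only [mul_assoc]
      rw [h3, hw3, hw2, hγ i0, h1, hrf.2.1]
    rw [h2]
    exact hJr _ _ (hJl _ _ (hσJ γ))

end

end Pool.Agent.Lib.MP_2001a4_an
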