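import Mathlib
import Pool.Agent.Lib.MP_2001a4_an.FinDim

/-!
# A unital quotient C*-algebra
-/

namespace Pool.Agent.Lib.MP_2001a4_an

open Filter Topology

universe u

/-- A closed selfadjoint two-sided ideal with an approximate unit of projections and with a unit
modulo the ideal. -/
structure QData (A : Type u) [NonUnitalCStarAlgebra A] where
  J : Submodule ℂ A
  closed : IsClosed (J : Set A)
  hl : ∀ a, ∀ x ∈ J, a * x ∈ J
  hr : ∀ a, ∀ x ∈ J, x * a ∈ J
  hst : ∀ x ∈ J, star x ∈ J
  w : ℕ → A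
  hw : ∀ n, Proj (w n)
  hwJ : ∀ n, w n ∈ J
  hwlim : ∀ x ∈ J, Tendsto (fun n => x * w n) atTop (𝓝 x)
  e : A
  hul : ∀ a, a - e * a ∈ J
  hur : ∀ a, a - a * e ∈ J

namespace QData

variable {A : Type u} [NonUnitalCStarAlgebra A] (I : QData A)

/-- The quotient. -/
def Q : Type u := A ⧸ I.J

/-- The quotient map. -/
def pr (a : A) : I.Q := Submodule.Quotient.mk a

lemma pr_surj : Function.Surjective I.pr := fun x => Quotient.inductionOn' x fun a => ⟨a, rfl⟩

lemma pr_eq {a b : A} : I.pr a = I.pr b ↔ a - b ∈ I.J := Submodule.Quotient.eq I.J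

/-- Norm on the quotient (auxiliary). -/
@[reducible] noncomputable def nacg : NormedAddCommGroup I.Q :=
  Submodule.Quotient.normedAddCommGroup I.J (hS := I.closed)

noncomputable instance acg : AddCommGroup I.Q := I.nacg.toAddCommGroup

noncomputable instance instNormQ : Norm I.Q := I.nacg.toNorm

lemma pr_add (a b : A) : I.pr (a + b) = I.pr a + I.pr b := rfl

lemma pr_zero : I.pr 0 = 0 := rfl

noncomputable instance : Module ℂ I.Q :=
  inferInstanceAs (Module ℂ (A ⧸ I.J))

lemma pr_smul (c : ℂ) (a : A) : I.pr (c • a) = c • I.pr a := rfl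

instance : Mul I.Q :=
  ⟨Quotient.map₂ (· * ·) (by
    intro a a' h b b' h'
    have h1 : a - a' ∈ I.J := (Submodule.quotientRel_def _).1 h
    have h2 : b - b' ∈ I.J := (Submodule.quotientRel_def _).1 h'
    refine (Submodule.quotientRel_def _).2 ?_
    have h3 : a * b - a' * b' = (a - a') * b + a' * (b - b') := by
      rw [sub_mul, mul_sub]; abel
    change a * b - a' * b' ∈ I.J
    rw [h3]
    exact I.J.add_mem (I.hr _ _ h1) (I.hl _ _ h2))⟩

lemma pr_mul (a b : A) : I.pr (a * b) = I.pr a * I.pr b := rfl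

instance : One I.Q := ⟨I.pr I.e⟩

lemma one_def : (1 : I.Q) = I.pr I.e := rfl

noncomputable instance instRingQ : Ring I.Q :=
  { I.acg with
    mul := (· * ·)
    one := 1
    mul_assoc := by
      intro x y z
      obtain ⟨a, rfl⟩ := I.pr_surj x
      obtain ⟨b, rfl⟩ := I.pr_surj y
      obtain ⟨c, rfl⟩ := I.pr_surj z
      simp only [← pr_mul, mul_assoc]
    left_distrib := by
      intro x y z
      obtain ⟨a, rfl⟩ := I.pr_surj x
      obtain ⟨b, rfl⟩ := I.pr_surj y
      obtain ⟨c, rfl⟩ := I.pr_surj z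
      simp only [← pr_mul, ← pr_add, mul_add]
    right_distrib := by
      intro x y z
      obtain ⟨a, rfl⟩ := I.pr_surj x
      obtain ⟨b, rfl⟩ := I.pr_surj y
      obtain ⟨c, rfl⟩ := I.pr_surj z
      simp only [← pr_mul, ← pr_add, add_mul]
    zero_mul := by
      intro x
      obtain ⟨a, rfl⟩ := I.pr_surj x
      simp only [← pr_mul, ← pr_zero, zero_mul]
    mul_zero := by
      intro x
      obtain ⟨a, rfl⟩ := I.pr_surj x
      simp only [← pr_mul, ← pr_zero, mul_zero]
    one_mul := by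
      intro x
      obtain ⟨a, rfl⟩ := I.pr_surj x
      rw [one_def, ← pr_mul]
      exact ((I.pr_eq).2 (I.hul a)).symm
    mul_one := by
      intro x
      obtain ⟨a, rfl⟩ := I.pr_surj x
      rw [one_def, ← pr_mul]
      exact ((I.pr_eq).2 (I.hur a)).symm }

noncomputable instance instNormedRingQ : NormedRing I.Q :=
  { I.nacg, I.instRingQ with
    norm_mul_le := by
      intro x y
      have hlim : Tendsto (fun ε : ℝ => (‖x‖ + ε) * (‖y‖ + ε)) (𝓝[>] 0) (𝓝 (‖x‖ * ‖y‖)) := by
        have : Tendsto (fun ε : ℝ => (‖x‖ + ε) * (‖y‖ + ε)) (𝓝 0)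
            (𝓝 ((‖x‖ + 0) * (‖y‖ + 0))) :=
          Continuous.tendsto (by fun_prop) 0
        rw [add_zero, add_zero] at this
        exact this.mono_left nhdsWithin_le_nhds
      refine ge_of_tendsto hlim (eventually_nhdsWithin_of_forall fun ε hε => ?_)
      obtain ⟨a, ha0, ha⟩ := Submodule.Quotient.norm_mk_lt (S := I.J) x hε
      obtain ⟨b, hb0, hb⟩ := Submodule.Quotient.norm_mk_lt (S := I.J) y hε
      have hxy : x * y = I.pr (a * b) := by rw [← ha0, ← hb0]; rfl
      rw [hxy]
      have h0 := Submodule.Quotient.norm_mk_le I.J (a * b)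
      refine h0.trans ((norm_mul_le a b).trans ?_)
      exact mul_le_mul ha.le hb.le (norm_nonneg _) ((norm_nonneg a).trans ha.le) }

lemma norm_pr_le (a : A) : ‖I.pr a‖ ≤ ‖a‖ := Submodule.Quotient.norm_mk_le I.J a

lemma exists_rep_lt (x : I.Q) {ε : ℝ} (hε : 0 < ε) : ∃ a, I.pr a = x ∧ ‖a‖ < ‖x‖ + ε :=
  Submodule.Quotient.norm_mk_lt (S := I.J) x hε

instance instCompleteQ : CompleteSpace I.Q :=
  inferInstanceAs (CompleteSpace (A ⧸ I.J))

instance : Star I.Q :=
  ⟨Quotient.map star (by
    intro a a' h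
    have h1 : a - a' ∈ I.J := (Submodule.quotientRel_def _).1 h
    refine (Submodule.quotientRel_def _).2 ?_
    rw [← star_sub]
    exact I.hst _ h1)⟩

lemma pr_star (a : A) : I.pr (star a) = star (I.pr a) := rfl

noncomputable instance : StarRing I.Q where
  star_involutive := by
    intro x
    obtain ⟨a, rfl⟩ := I.pr_surj x
    simp only [← pr_star, star_star]
  star_mul := by
    intro x y
    obtain ⟨a, rfl⟩ := I.pr_surj x
    obtain ⟨b, rfl⟩ := I.pr_surj y
    simp only [← pr_star, ← pr_mul, star_mul]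
  star_add := by
    intro x y
    obtain ⟨a, rfl⟩ := I.pr_surj x
    obtain ⟨b, rfl⟩ := I.pr_surj y
    rw [← pr_star, ← pr_star, ← pr_add, ← pr_add, ← pr_star, star_add]

noncomputable instance instAlgebraQ : Algebra ℂ I.Q :=
  Algebra.ofModule (R := ℂ) (A := I.Q)
      (by
        intro c x y
        obtain ⟨a, rfl⟩ := I.pr_surj x
        obtain ⟨b, rfl⟩ := I.pr_surj y
        rw [← pr_smul, ← pr_mul, ← pr_mul, ← pr_smul, smul_mul_assoc])
      (by
        intro c x y
        obtain ⟨a, rfl⟩ := I.pr_surj x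
        obtain ⟨b, rfl⟩ := I.pr_surj y
        rw [← pr_smul, ← pr_mul, ← pr_mul, ← pr_smul, mul_smul_comm])

noncomputable instance : NormedAlgebra ℂ I.Q where
  norm_smul_le := fun c x =>
    (Submodule.Quotient.normedSpace I.J ℂ).norm_smul_le c x

instance : StarModule ℂ I.Q where
  star_smul := by
    intro c x
    obtain ⟨a, rfl⟩ := I.pr_surj x
    change I.pr (star (c • a)) = _
    rw [star_smul]
    rfl

lemma norm_pr_le_sub (a : A) (n : ℕ) : ‖I.pr a‖ ≤ ‖a - a * I.w n‖ := by
  have : I.pr a = I.pr (a - a * I.w n) := by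
    rw [pr_eq, sub_sub_cancel]
    exact I.hl _ _ (I.hwJ n)
  rw [this]
  exact I.norm_pr_le _

lemma le_norm_pr {r : ℝ} {a : A} (h : ∀ b, b - a ∈ I.J → r ≤ ‖b‖) : r ≤ ‖I.pr a‖ := by
  refine le_of_forall_pos_le_add fun ε hε => ?_
  obtain ⟨b, hb, hb'⟩ := I.exists_rep_lt (I.pr a) hε
  exact (h b ((I.pr_eq).1 hb)).trans hb'.le

instance : CStarRing I.Q where
  norm_mul_self_le := by
    intro x
    obtain ⟨a, rfl⟩ := I.pr_surj x
    rw [← pr_star, ← pr_mul]
    refine I.le_norm_pr fun b hb => ?_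
    -- b = star a * a + i
    set i := b - star a * a with hi
    have hlim : Tendsto (fun n => ‖b‖ + ‖i - i * I.w n‖) atTop (𝓝 (‖b‖ + ‖i - i‖)) := by
      refine tendsto_const_nhds.add ?_
      exact (tendsto_const_nhds.sub (I.hwlim i hb)).norm
    rw [sub_self, norm_zero, add_zero] at hlim
    refine ge_of_tendsto' hlim fun n => ?_
    have h1 : ‖a - a * I.w n‖ * ‖a - a * I.w n‖ ≤ ‖star a * a - star a * a * I.w n‖ := by
      rw [← CStarRing.norm_star_mul_self]
      have h2 : star (a - a * I.w n) * (a - a * I.w n)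
          = star ((star (star a * a - star a * a * I.w n))
            - star (star a * a - star a * a * I.w n) * I.w n) := by
        simp only [star_sub, star_mul, star_star, (I.hw n).1, sub_mul, mul_sub, mul_assoc]
        abel
      rw [h2, norm_star]
      exact (proj_norm_sub_le (I.hw n)).trans_eq (norm_star _)
    have h3 : star a * a - star a * a * I.w n
        = (b - b * I.w n) - (i - i * I.w n) := by
      rw [hi, sub_mul]; abel
    calc ‖I.pr a‖ * ‖I.pr a‖ ≤ ‖a - a * I.w n‖ * ‖a - a * I.w n‖ :=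
          mul_le_mul (I.norm_pr_le_sub a n) (I.norm_pr_le_sub a n) (norm_nonneg _) (norm_nonneg _)
      _ ≤ ‖star a * a - star a * a * I.w n‖ := h1
      _ = ‖(b - b * I.w n) - (i - i * I.w n)‖ := by rw [h3]
      _ ≤ ‖b - b * I.w n‖ + ‖i - i * I.w n‖ := norm_sub_le _ _
      _ ≤ ‖b‖ + ‖i - i * I.w n‖ := by
        have := proj_norm_sub_le (x := b) (I.hw n)
        linarith

noncomputable instance : CStarAlgebra I.Q where

/-- The quotient map as a star homomorphism. -/
noncomputable def prHom : A →⋆ₙₐ[ℂ] I.Q where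
  toFun := I.pr
  map_smul' c a := I.pr_smul c a
  map_zero' := rfl
  map_add' _ _ := rfl
  map_mul' _ _ := rfl
  map_star' _ := rfl

lemma prHom_surj : Function.Surjective I.prHom := I.pr_surj

lemma nontrivial (h : I.e ∉ I.J) : Nontrivial I.Q := by
  refine ⟨⟨1, 0, fun h' => h ?_⟩⟩
  rw [one_def, ← pr_zero, pr_eq, sub_zero] at h'
  exact h'

end QData

end Pool.Agent.Lib.MP_2001a4_an
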