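import Mathlib
import Pool.Agent.Lib.MP_2001a4_an.FinDim
import Pool.Agent.Lib.MP_2001a4_an.Core
import Pool.Agent.Lib.MP_2001a4_an.Quot

/-!
# An approximate unit with full, highly divisible differences
-/

namespace Pool.Agent.Lib.MP_2001a4_an

open Filter Topology

universe u

variable {A : Type u} [NonUnitalCStarAlgebra A]

lemma isClosed_of_fd (S : NonUnitalStarSubalgebra ℂ A) [hS : FiniteDimensional ℂ S] :
    IsClosed (S : Set A) := by
  have h : FiniteDimensional ℂ S.toNonUnitalSubalgebra.toSubmodule := hS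
  exact Submodule.closed_of_finiteDimensional S.toNonUnitalSubalgebra.toSubmodule

lemma exists_unit_in (S : NonUnitalStarSubalgebra ℂ A) [hS : FiniteDimensional ℂ S] :
    ∃ q ∈ S, Proj q ∧ (∀ x ∈ S, q * x = x) ∧ (∀ x ∈ S, x * q = x) := by
  have hc : IsClosed (S : Set A) := isClosed_of_fd S
  obtain ⟨u, hu, h1, h2⟩ := exists_unit (R := S)
  refine ⟨u, u.2, ⟨congrArg Subtype.val hu.1, congrArg Subtype.val hu.2⟩, ?_, ?_⟩
  · intro x hx
    exact congrArg Subtype.val (h1 ⟨x, hx⟩)
  · intro x hx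
    exact congrArg Subtype.val (h2 ⟨x, hx⟩)

/-- Data of an AF algebra with the units of the finite-dimensional subalgebras. -/
structure AF (A : Type u) [NonUnitalCStarAlgebra A] where
  F : ℕ → NonUnitalStarSubalgebra ℂ A
  mono : Monotone F
  fd : ∀ n, FiniteDimensional ℂ (F n)
  dense : Dense (⋃ n, (F n : Set A))
  q : ℕ → A
  qmem : ∀ n, q n ∈ F n
  qproj : ∀ n, Proj (q n)
  ql : ∀ n, ∀ x ∈ F n, q n * x = x
  qr : ∀ n, ∀ x ∈ F n, x * q n = x

namespace AF

variable (D : AF A)

lemma q_mul {m n : ℕ} (h : m ≤ n) : D.q m * D.q n = D.q m :=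
  D.qr n _ (D.mono h (D.qmem m))

lemma q_mul' {m n : ℕ} (h : m ≤ n) : D.q n * D.q m = D.q m :=
  D.ql n _ (D.mono h (D.qmem m))

/-- a property closed under limits holding on all `F n` holds everywhere. -/
lemma dense_induction {P : A → Prop} (hP : IsClosed {a | P a}) (h : ∀ n, ∀ x ∈ D.F n, P x)
    (a : A) : P a := by
  have h1 : (⋃ n, (D.F n : Set A)) ⊆ {a | P a} := by
    intro x hx
    obtain ⟨n, hn⟩ := Set.mem_iUnion.1 hx
    exact h n x hn
  have h2 := closure_minimal h1 hP
  rw [D.dense.closure_eq] at h2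
  exact h2 (Set.mem_univ a)

/-- The algebraic ideal of `F m` generated by `q m - q n`. -/
noncomputable def idl (n m : ℕ) : Submodule ℂ A :=
  Submodule.span ℂ {z | ∃ x ∈ D.F m, ∃ y ∈ D.F m, z = x * (D.q m - D.q n) * y}

lemma idl_le {n m : ℕ} (h : n ≤ m) : ∀ z ∈ D.idl n m, z ∈ D.F m := by
  intro z hz
  have h1 : D.idl n m ≤ (D.F m).toNonUnitalSubalgebra.toSubmodule := by
    apply Submodule.span_le.2
    rintro _ ⟨x, hx, y, hy, rfl⟩
    have h2 : D.q m - D.q n ∈ D.F m := sub_mem (D.qmem m) (D.mono h (D.qmem n))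
    change x * (D.q m - D.q n) * y ∈ D.F m
    exact mul_mem (mul_mem hx h2) hy
  exact h1 hz

lemma idl_mul_left {n m : ℕ} {a z : A} (ha : a ∈ D.F m) (hz : z ∈ D.idl n m) :
    a * z ∈ D.idl n m := by
  induction hz using Submodule.span_induction with
  | mem z hz =>
    obtain ⟨x, hx, y, hy, rfl⟩ := hz
    refine Submodule.subset_span ⟨a * x, mul_mem ha hx, y, hy, ?_⟩
    simp only [mul_assoc]
  | zero => rw [mul_zero]; exact Submodule.zero_mem _
  | add x y _ _ hx hy => rw [mul_add]; exact Submodule.add_mem _ hx hy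
  | smul c x _ hx => rw [mul_smul_comm]; exact Submodule.smul_mem _ _ hx

lemma idl_mul_right {n m : ℕ} {a z : A} (ha : a ∈ D.F m) (hz : z ∈ D.idl n m) :
    z * a ∈ D.idl n m := by
  induction hz using Submodule.span_induction with
  | mem z hz =>
    obtain ⟨x, hx, y, hy, rfl⟩ := hz
    refine Submodule.subset_span ⟨x, hx, y * a, mul_mem hy ha, ?_⟩
    simp only [mul_assoc]
  | zero => rw [zero_mul]; exact Submodule.zero_mem _
  | add x y _ _ hx hy => rw [add_mul]; exact Submodule.add_mem _ hx hy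
  | smul c x _ hx => rw [smul_mul_assoc]; exact Submodule.smul_mem _ _ hx

lemma idl_star {n m : ℕ} {z : A} (hz : z ∈ D.idl n m) : star z ∈ D.idl n m := by
  induction hz using Submodule.span_induction with
  | mem z hz =>
    obtain ⟨x, hx, y, hy, rfl⟩ := hz
    refine Submodule.subset_span ⟨star y, star_mem hy, star x, star_mem hx, ?_⟩
    simp only [star_mul, star_sub, (D.qproj m).1, (D.qproj n).1, mul_assoc]
  | zero => rw [star_zero]; exact Submodule.zero_mem _
  | add x y _ _ hx hy => rw [star_add]; exact Submodule.add_mem _ hx hy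
  | smul c x _ hx => rw [star_smul]; exact Submodule.smul_mem _ _ hx

lemma idl_mono {n m k : ℕ} (h1 : n ≤ m) (h2 : m ≤ k) : D.idl n m ≤ D.idl n k := by
  apply Submodule.span_le.2
  rintro _ ⟨x, hx, y, hy, rfl⟩
  have h3 : D.q m - D.q n ∈ D.F k := sub_mem (D.mono h2 (D.qmem m)) (D.mono (h1.trans h2)
    (D.qmem n))
  refine Submodule.subset_span ⟨x * (D.q m - D.q n), mul_mem (D.mono h2 hx) h3, y,
    D.mono h2 hy, ?_⟩
  have h4 : (D.q m - D.q n) * (D.q k - D.q n) = D.q m - D.q n := by
    rw [sub_mul, mul_sub, mul_sub, D.q_mul h2, D.q_mul' h1, D.q_mul (h1.trans h2),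
      D.q_mul le_rfl]
    abel
  rw [mul_assoc x (D.q m - D.q n) (D.q k - D.q n), h4]

/-- `idl n m` as a star subalgebra. -/
noncomputable def idlAlg {n m : ℕ} (h : n ≤ m) : NonUnitalStarSubalgebra ℂ A where
  carrier := D.idl n m
  add_mem' := fun hx hy => Submodule.add_mem _ hx hy
  zero_mem' := Submodule.zero_mem _
  mul_mem' := fun hx hy => D.idl_mul_left (D.idl_le h _ hx) hy
  smul_mem' := fun c _ hx => Submodule.smul_mem _ c hx
  star_mem' := fun hx => D.idl_star hx

lemma idlAlg_fd {n m : ℕ} (h : n ≤ m) : FiniteDimensional ℂ (D.idlAlg h) := by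
  have := D.fd m
  let f : (D.idlAlg h) →ₗ[ℂ] (D.F m) :=
    { toFun := fun x => ⟨x.1, D.idl_le h x.1 x.2⟩
      map_add' := fun _ _ => rfl
      map_smul' := fun _ _ => rfl }
  refine FiniteDimensional.of_injective f ?_
  intro x y hxy
  exact Subtype.ext (congrArg (fun z : D.F m => (z : A)) hxy)

/-- First consequence of the absence of unital quotients. -/
lemma exists_close (hA : ∀ (E : Type u) [CStarAlgebra E], Nontrivial E →
    ∀ φ : A →⋆ₙₐ[ℂ] E, ¬ Function.Surjective φ) (n : ℕ) :
    ∃ m, n < m ∧ ∃ w ∈ D.idl n m, ‖D.q n - w‖ < 1 := by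
  by_contra hcon
  push Not at hcon
  let I' : ℕ → Submodule ℂ A := fun k => D.idl n (n + k)
  have hI'mono : Monotone I' := fun a b hab => D.idl_mono (by omega) (by omega)
  let J₀ : Submodule ℂ A := ⨆ k, I' k
  have hJ₀mem : ∀ x, x ∈ J₀ ↔ ∃ k, x ∈ I' k := fun x =>
    Submodule.mem_iSup_of_directed I' hI'mono.directed_le
  let J : Submodule ℂ A := J₀.topologicalClosure
  have hJc : IsClosed (J : Set A) := J₀.isClosed_topologicalClosure
  have hJ₀J : ∀ x ∈ J₀, x ∈ J := fun x hx => J₀.le_topologicalClosure hx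
  -- induction principle
  have hJind : ∀ (P : A → Prop), IsClosed {a | P a} → (∀ k, ∀ x ∈ I' k, P x) → ∀ x ∈ J, P x := by
    intro P hP h x hx
    have h1 : (J₀ : Set A) ⊆ {a | P a} := by
      intro y hy
      obtain ⟨k, hk⟩ := (hJ₀mem y).1 hy
      exact h k y hk
    exact closure_minimal h1 hP hx
  have hcl : ∀ k, ∀ x ∈ I' k, ∀ a : A, a * x ∈ J := by
    intro k x hx
    refine D.dense_induction (P := fun a => a * x ∈ J) ?_ ?_
    · exact hJc.preimage (continuous_mul_const x)
    · intro j a ha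
      apply hJ₀J
      rw [hJ₀mem]
      refine ⟨max k j, ?_⟩
      exact D.idl_mul_left (D.mono (by omega) ha) (hI'mono (le_max_left k j) hx)
  have hcr : ∀ k, ∀ x ∈ I' k, ∀ a : A, x * a ∈ J := by
    intro k x hx
    refine D.dense_induction (P := fun a => x * a ∈ J) ?_ ?_
    · exact hJc.preimage (continuous_const_mul x)
    · intro j a ha
      apply hJ₀J
      rw [hJ₀mem]
      refine ⟨max k j, ?_⟩
      exact D.idl_mul_right (D.mono (by omega) ha) (hI'mono (le_max_left k j) hx)
  have hl : ∀ a, ∀ x ∈ J, a * x ∈ J := fun a =>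
    hJind (fun x => a * x ∈ J) (hJc.preimage (continuous_const_mul a)) (fun k x hx => hcl k x hx a)
  have hr : ∀ a, ∀ x ∈ J, x * a ∈ J := fun a =>
    hJind (fun x => x * a ∈ J) (hJc.preimage (continuous_mul_const a)) (fun k x hx => hcr k x hx a)
  have hst : ∀ x ∈ J, star x ∈ J :=
    hJind (fun x => star x ∈ J) (hJc.preimage continuous_star) (fun k x hx =>
      hJ₀J _ ((hJ₀mem _).2 ⟨k, D.idl_star hx⟩))
  have hunit : ∀ k, ∃ w ∈ I' k, Proj w ∧ ∀ x ∈ I' k, x * w = x := by
    intro k
    have hnk : n ≤ n + k := by omega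
    have := D.idlAlg_fd hnk
    obtain ⟨w, hw1, hw2, _, hw4⟩ := exists_unit_in (D.idlAlg hnk)
    exact ⟨w, hw1, hw2, hw4⟩
  choose w hwI hwP hwr using hunit
  let I : QData A :=
    { J := J
      closed := hJc
      hl := hl
      hr := hr
      hst := hst
      w := w
      hw := hwP
      hwJ := fun k => hJ₀J _ ((hJ₀mem _).2 ⟨k, hwI k⟩)
      hwlim := by
        intro x hx
        rw [Metric.tendsto_atTop]
        intro ε hε
        have hx' : x ∈ closure (J₀ : Set A) := hx
        obtain ⟨x', hx'J, hxx'⟩ := Metric.mem_closure_iff.1 hx' ε hε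
        obtain ⟨k, hk⟩ := (hJ₀mem x').1 hx'J
        refine ⟨k, fun l hl => ?_⟩
        have h1 : x' * w l = x' := hwr l x' (hI'mono hl hk)
        rw [dist_comm, dist_eq_norm]
        have h2 : x - x * w l = (x - x') - (x - x') * w l := by
          rw [sub_mul, h1]; abel
        rw [h2]
        refine (proj_norm_sub_le (hwP l)).trans_lt ?_
        rwa [← dist_eq_norm]
      e := D.q n
      hul := by
        refine D.dense_induction (P := fun a => a - D.q n * a ∈ J) ?_ ?_
        · exact hJc.preimage (continuous_id.sub (continuous_const_mul _))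
        · intro j a ha
          apply hJ₀J
          rw [hJ₀mem]
          refine ⟨j, ?_⟩
          have ha' : a ∈ D.F (n + j) := D.mono (by omega) ha
          refine Submodule.subset_span ⟨D.q (n + j), D.qmem _, a, ha', ?_⟩
          rw [mul_sub, (D.qproj _).2, D.q_mul' (by omega : n ≤ n + j), sub_mul,
            D.ql _ a ha']
      hur := by
        refine D.dense_induction (P := fun a => a - a * D.q n ∈ J) ?_ ?_
        · exact hJc.preimage (continuous_id.sub (continuous_mul_const _))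
        · intro j a ha
          apply hJ₀J
          rw [hJ₀mem]
          refine ⟨j, ?_⟩
          have ha' : a ∈ D.F (n + j) := D.mono (by omega) ha
          refine Submodule.subset_span ⟨a, ha', D.q (n + j), D.qmem _, ?_⟩
          rw [mul_sub, sub_mul, D.qr _ a ha', D.qr _ a ha', mul_assoc,
            D.q_mul (by omega : n ≤ n + j)] }
  refine hA I.Q (I.nontrivial ?_) I.prHom I.prHom_surj
  intro hq
  have hq' : D.q n ∈ closure (J₀ : Set A) := hq
  obtain ⟨z, hz, hzn⟩ := Metric.mem_closure_iff.1 hq' 1 one_pos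
  obtain ⟨k, hk⟩ := (hJ₀mem z).1 hz
  rw [dist_eq_norm] at hzn
  have h1 : z ∈ D.idl n (n + (k + 1)) := hI'mono (Nat.le_succ k) hk
  exact absurd hzn (not_lt.2 (hcon (n + (k + 1)) (by omega) z h1))

/-- Second form. -/
lemma exists_full (hA : ∀ (E : Type u) [CStarAlgebra E], Nontrivial E →
    ∀ φ : A →⋆ₙₐ[ℂ] E, ¬ Function.Surjective φ) (n : ℕ) :
    ∃ m, n < m ∧ ∀ k, m ≤ k → ∀ x ∈ D.F k, (∀ y ∈ D.F k, x * y * (D.q m - D.q n) = 0) →
      x * D.q n = 0 := by
  obtain ⟨m, hm, w, hw, hwn⟩ := D.exists_close hA n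
  refine ⟨m, hm, fun k hk x hx h => ?_⟩
  set z := x * D.q n with hz
  have hqk : D.q n ∈ D.F k := D.mono (by omega) (D.qmem n)
  have h1 : z * w = 0 := by
    have : ∀ v ∈ D.idl n m, z * v = 0 := by
      intro v hv
      induction hv using Submodule.span_induction with
      | mem v hv =>
        obtain ⟨x', hx', y', hy', rfl⟩ := hv
        have h2 := h (D.q n * x') (mul_mem hqk (D.mono hk hx'))
        have h3 : z * (x' * (D.q m - D.q n) * y')
            = x * (D.q n * x') * (D.q m - D.q n) * y' := by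
          rw [hz]; simp only [mul_assoc]
        rw [h3, h2, zero_mul]
      | zero => rw [mul_zero]
      | add x y _ _ hx hy => rw [mul_add, hx, hy, add_zero]
      | smul c x _ hx => rw [mul_smul_comm, hx, smul_zero]
    exact this w hw
  have h2 : z = z * (D.q n - w) := by
    rw [mul_sub, h1, sub_zero, hz, mul_assoc, (D.qproj n).2]
  by_contra hz0
  have hzpos : 0 < ‖z‖ := norm_pos_iff.2 hz0
  have h3 : ‖z‖ ≤ ‖z‖ * ‖D.q n - w‖ := by
    calc ‖z‖ = ‖z * (D.q n - w)‖ := by rw [← h2]
      _ ≤ _ := norm_mul_le _ _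
  nlinarith

end AF

end Pool.Agent.Lib.MP_2001a4_an
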