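import Mathlib
import Pool.Agent.Lib.MP_2001a4_an.FinDim

/-!
# Images of matrices near a closed ideal
-/

namespace Pool.Agent.Lib.MP_2001a4_an

open Filter Topology Matrix

open scoped Matrix.Norms.L2Operator

universe u

variable {A : Type u} [NonUnitalCStarAlgebra A]

lemma proj_norm_le_one {p : A} (hp : Proj p) : ‖p‖ ≤ 1 := by
  have h : ‖p‖ * ‖p‖ = ‖p‖ := by
    rw [← CStarRing.norm_star_mul_self, hp.1, hp.2]
  rcases (norm_nonneg p).eq_or_lt with h0 | h0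
  · rw [← h0]; exact zero_le_one
  · have := mul_right_cancel₀ h0.ne' (h.trans (one_mul _).symm)
    exact this.le

/-- If a projection `f` is close to an element `y` of a closed ideal with `f y f = y`
then it belongs to the ideal. -/
lemma mem_of_close {J : Submodule ℂ A} (hJc : IsClosed (J : Set A))
    (hJl : ∀ a : A, ∀ x ∈ J, a * x ∈ J) {f y : A} (hf : Proj f) (hy : y ∈ J)
    (hyf : y * f = y) (h : ‖f - y‖ < 1) : f ∈ J := by
  set z := f - y with hz
  have hzf : z * f = z := by rw [hz, sub_mul, hf.2, hyf]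
  let s : ℕ → A := fun n => Nat.rec f (fun _ t => z * t) n
  have hs0 : s 0 = f := rfl
  have hs : ∀ n, s (n + 1) = z * s n := fun n => rfl
  have hmem : ∀ n, f - s n ∈ J := by
    intro n
    induction n with
    | zero => rw [hs0, sub_self]; exact J.zero_mem
    | succ n ih =>
      have h1 : f - s (n + 1) = y + z * (f - s n) := by
        rw [hs, mul_sub, hzf, hz]; abel
      rw [h1]
      exact J.add_mem hy (hJl _ _ ih)
  have hnorm : ∀ n, ‖s n‖ ≤ ‖z‖ ^ n * ‖f‖ := by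
    intro n
    induction n with
    | zero => rw [hs0, pow_zero, one_mul]
    | succ n ih =>
      rw [hs, pow_succ']
      calc ‖z * s n‖ ≤ ‖z‖ * ‖s n‖ := norm_mul_le _ _
        _ ≤ ‖z‖ * (‖z‖ ^ n * ‖f‖) := mul_le_mul_of_nonneg_left ih (norm_nonneg _)
        _ = _ := by ring
  have hlim : Tendsto s atTop (𝓝 0) := by
    apply squeeze_zero_norm hnorm
    have := (tendsto_pow_atTop_nhds_zero_of_lt_one (norm_nonneg z) h).mul_const ‖f‖
    rwa [zero_mul] at this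
  have hlim2 : Tendsto (fun n => f - s n) atTop (𝓝 f) := by
    have := (tendsto_const_nhds (x := f)).sub hlim
    rwa [sub_zero] at this
  exact hJc.mem_of_tendsto hlim2 (Eventually.of_forall hmem)

lemma mtx {N : ℕ} (hN : 0 < N) (θ : Matrix (Fin N) (Fin N) ℂ →⋆ₙₐ[ℂ] A) {J : Submodule ℂ A}
    (hJc : IsClosed (J : Set A)) (hJl : ∀ a : A, ∀ x ∈ J, a * x ∈ J)
    (hJr : ∀ a : A, ∀ x ∈ J, x * a ∈ J) (M : Matrix (Fin N) (Fin N) ℂ) {ε : ℝ}
    (hM : ε < ‖M‖) {a : A} (haJ : a ∈ J) (ha : ‖a - θ M‖ ≤ ε) :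
    ∃ M' : Matrix (Fin N) (Fin N) ℂ, M' ≠ 0 ∧ θ M' ∈ J := by
  have hε : 0 ≤ ε := (norm_nonneg _).trans ha
  obtain ⟨ξ, hξ1, hξ2⟩ := ContinuousLinearMap.exists_lt_apply_of_lt_opNorm
    (toEuclideanCLM (n := Fin N) (𝕜 := ℂ) M) (r := ε) hM
  let i0 : Fin N := ⟨0, hN⟩
  let e0 : Fin N → ℂ := Pi.single i0 1
  have he0 : star e0 = e0 := by
    ext i
    by_cases h : i = i0
    · subst h; simp [e0]
    · simp [e0, h]
  have he00 : e0 ⬝ᵥ e0 = 1 := by simp [e0]
  let x : Fin N → ℂ := WithLp.ofLp ξ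
  let y : Fin N → ℂ := M *ᵥ x
  set μ : ℝ := ‖(toEuclideanCLM (n := Fin N) (𝕜 := ℂ) M) ξ‖ with hμ
  have hμ0 : 0 < μ := lt_of_le_of_lt hε hξ2
  have hyy : star y ⬝ᵥ y = ((μ ^ 2 : ℝ) : ℂ) := by
    rw [hμ, EuclideanSpace.norm_sq_eq]
    rw [dotProduct]
    push_cast
    refine Finset.sum_congr rfl fun i _ => ?_
    have h1 : ((toEuclideanCLM (n := Fin N) (𝕜 := ℂ) M) ξ).ofLp i = y i := rfl
    rw [h1, Pi.star_apply, Complex.star_def, ← Complex.normSq_eq_conj_mul_self,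
      Complex.normSq_eq_norm_sq]
    push_cast; rfl
  have hxx : star x ⬝ᵥ x = ((‖ξ‖ ^ 2 : ℝ) : ℂ) := by
    rw [EuclideanSpace.norm_sq_eq]
    rw [dotProduct]
    push_cast
    refine Finset.sum_congr rfl fun i _ => ?_
    rw [Pi.star_apply, Complex.star_def, ← Complex.normSq_eq_conj_mul_self,
      Complex.normSq_eq_norm_sq]
    push_cast; rfl
  let E : Matrix (Fin N) (Fin N) ℂ := vecMulVec e0 e0
  let V : Matrix (Fin N) (Fin N) ℂ := vecMulVec x e0
  let U : Matrix (Fin N) (Fin N) ℂ := vecMulVec e0 (star y)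
  have hE0 : E ≠ 0 := by
    intro h
    have := congrFun (congrFun h i0) i0
    simp [E, e0, vecMulVec_apply] at this
  have hEs : star E = E := by
    rw [star_eq_conjTranspose, conjTranspose_vecMulVec, he0]
  have hEE : E * E = E := by
    rw [vecMulVec_mul_vecMulVec, he00, one_smul]
  have hVE : V * E = V := by
    rw [vecMulVec_mul_vecMulVec, he00, one_smul]
  have hVV : star V * V = ((‖ξ‖ ^ 2 : ℝ) : ℂ) • E := by
    rw [star_eq_conjTranspose, conjTranspose_vecMulVec, he0, vecMulVec_mul_vecMulVec, hxx,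
      vecMulVec_smul]
  have hUU : U * star U = ((μ ^ 2 : ℝ) : ℂ) • E := by
    rw [star_eq_conjTranspose, conjTranspose_vecMulVec, he0, star_star, vecMulVec_mul_vecMulVec,
      hyy, vecMulVec_smul]
  have hUMV : U * M * V = ((μ ^ 2 : ℝ) : ℂ) • E := by
    rw [mul_assoc, mul_vecMulVec, vecMulVec_mul_vecMulVec]
    change vecMulVec e0 ((star y ⬝ᵥ y) • e0) = _
    rw [hyy, vecMulVec_smul]
  have hθE : Proj (θ E) := by
    refine ⟨by rw [← map_star, hEs], by rw [← map_mul, hEE]⟩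
  have hθE1 := proj_norm_le_one hθE
  have hV1 : ‖θ V‖ ≤ 1 := by
    have h1 : ‖θ V‖ * ‖θ V‖ ≤ 1 := by
      rw [← CStarRing.norm_star_mul_self, ← map_star, ← map_mul, hVV, map_smul, norm_smul,
        Complex.norm_real, Real.norm_eq_abs, abs_of_nonneg (sq_nonneg _)]
      have h2 : ‖ξ‖ ^ 2 ≤ 1 := pow_le_one₀ (norm_nonneg _) hξ1.le
      nlinarith [norm_nonneg (θ E)]
    nlinarith [norm_nonneg (θ V)]
  have hU1 : ‖θ U‖ ≤ μ := by
    have h1 : ‖θ U‖ * ‖θ U‖ ≤ μ ^ 2 := by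
      rw [← CStarRing.norm_self_mul_star, ← map_star, ← map_mul, hUU, map_smul, norm_smul,
        Complex.norm_real, Real.norm_eq_abs, abs_of_nonneg (sq_nonneg _)]
      nlinarith [norm_nonneg (θ E), sq_nonneg μ]
    nlinarith [norm_nonneg (θ U)]
  refine ⟨E, hE0, ?_⟩
  set c : ℂ := (((μ ^ 2 : ℝ) : ℂ))⁻¹ with hc
  have hμ2 : ((μ ^ 2 : ℝ) : ℂ) ≠ 0 := by exact_mod_cast (pow_pos hμ0 2).ne'
  refine mem_of_close hJc hJl (y := c • (θ U * a * θ V)) hθE ?_ ?_ ?_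
  · exact J.smul_mem _ (hJr _ _ (hJl _ _ haJ))
  · rw [smul_mul_assoc, mul_assoc, ← map_mul, hVE]
  · have h1 : θ E - c • (θ U * a * θ V) = c • (θ U * (θ M - a) * θ V) := by
      rw [mul_sub, sub_mul, ← map_mul, ← map_mul, hUMV, map_smul, smul_sub, smul_smul,
        inv_mul_cancel₀ hμ2, one_smul]
    rw [h1, norm_smul, hc, norm_inv, Complex.norm_real, Real.norm_eq_abs,
      abs_of_nonneg (sq_nonneg _)]
    have h2 : ‖θ U * (θ M - a) * θ V‖ ≤ μ * ε := by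
      calc ‖θ U * (θ M - a) * θ V‖ ≤ ‖θ U * (θ M - a)‖ * ‖θ V‖ := norm_mul_le _ _
        _ ≤ (‖θ U‖ * ‖θ M - a‖) * ‖θ V‖ :=
          mul_le_mul_of_nonneg_right (norm_mul_le _ _) (norm_nonneg _)
        _ ≤ (μ * ε) * 1 := by
          rw [norm_sub_rev] at ha
          gcongr
        _ = μ * ε := mul_one _
    rw [inv_mul_lt_iff₀ (pow_pos hμ0 2), mul_one]
    calc ‖θ U * (θ M - a) * θ V‖ ≤ μ * ε := h2
      _ < μ * μ := mul_lt_mul_of_pos_left hξ2 hμ0
      _ = μ ^ 2 := by ring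

end Pool.Agent.Lib.MP_2001a4_an
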