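import Mathlib
import Pool.Agent.Lib.MP_2001a4_an.FinDim

/-!
# Multipliers as strict limits
-/

namespace Pool.Agent.Lib.MP_2001a4_an

open Filter Topology MultiplierAlgebra

universe u

variable {A : Type u} [NonUnitalCStarAlgebra A]

/-- Strict limit of a bounded sequence. -/
lemma exists_strict_limit (x : ℕ → A) (K : ℝ) (hK0 : 0 ≤ K) (hK : ∀ n, ‖x n‖ ≤ K)
    (hl : ∀ a, CauchySeq (fun n => x n * a)) (hr : ∀ a, CauchySeq (fun n => a * x n)) :
    ∃ X : 𝓜(ℂ, A), ‖X‖ ≤ K ∧ (∀ a, Tendsto (fun n => x n * a) atTop (𝓝 (X.fst a))) ∧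
      (∀ a, Tendsto (fun n => a * x n) atTop (𝓝 (X.snd a))) := by
  have hl' := fun a => cauchySeq_tendsto_of_complete (hl a)
  have hr' := fun a => cauchySeq_tendsto_of_complete (hr a)
  choose f hf using hl'
  choose g hg using hr'
  let Lf : A →ₗ[ℂ] A := linearMapOfTendsto f (fun n => LinearMap.mulLeft ℂ (x n))
    (tendsto_pi_nhds.2 hf)
  let Lg : A →ₗ[ℂ] A := linearMapOfTendsto g (fun n => LinearMap.mulRight ℂ (x n))
    (tendsto_pi_nhds.2 hg)
  have hLf : ∀ a, Lf a = f a := fun a => rfl
  have hLg : ∀ a, Lg a = g a := fun a => rfl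
  have hfb : ∀ a, ‖Lf a‖ ≤ K * ‖a‖ := by
    intro a
    refine le_of_tendsto (hf a).norm (Eventually.of_forall fun n => ?_)
    exact (norm_mul_le _ _).trans (mul_le_mul_of_nonneg_right (hK n) (norm_nonneg _))
  have hgb : ∀ a, ‖Lg a‖ ≤ K * ‖a‖ := by
    intro a
    refine le_of_tendsto (hg a).norm (Eventually.of_forall fun n => ?_)
    refine (norm_mul_le _ _).trans ?_
    rw [mul_comm]
    exact mul_le_mul_of_nonneg_right (hK n) (norm_nonneg _)
  let X : 𝓜(ℂ, A) :=
    { fst := Lf.mkContinuous K hfb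
      snd := Lg.mkContinuous K hgb
      central := by
        intro a b
        change g a * b = a * f b
        have h1 : Tendsto (fun n => a * x n * b) atTop (𝓝 (g a * b)) := (hg a).mul_const b
        have h2 : Tendsto (fun n => a * x n * b) atTop (𝓝 (a * f b)) := by
          have := (hf b).const_mul a
          simpa only [mul_assoc] using this
        exact tendsto_nhds_unique h1 h2 }
  refine ⟨X, ?_, hf, hg⟩
  rw [← DoubleCentralizer.norm_fst]
  exact LinearMap.mkContinuous_norm_le _ hK0 hfb

lemma faithful_left {z w : A} (h : ∀ y : A, y * z = y * w) : z = w := by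
  have h1 : star (z - w) * (z - w) = 0 := by
    rw [mul_sub, h, sub_self]
  exact sub_eq_zero.1 (eq_zero_of_star_mul_self h1)

lemma faithful_right {z w : A} (h : ∀ y : A, z * y = w * y) : z = w := by
  have h1 : (z - w) * star (z - w) = 0 := by
    rw [sub_mul, h, sub_self]
  exact sub_eq_zero.1 (eq_zero_of_mul_star_self h1)

lemma fst_mul (X : 𝓜(ℂ, A)) (a b : A) : X.fst (a * b) = X.fst a * b := by
  apply faithful_left
  intro y
  rw [← X.central, ← mul_assoc, X.central, mul_assoc]

lemma snd_mul (X : 𝓜(ℂ, A)) (a b : A) : X.snd (a * b) = a * X.snd b := by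
  apply faithful_right
  intro y
  rw [X.central, mul_assoc, ← X.central, mul_assoc]

/-- inclusion -/
noncomputable abbrev inc : A →⋆ₙₐ[ℂ] 𝓜(ℂ, A) := DoubleCentralizer.coeHom

lemma mul_inc (X : 𝓜(ℂ, A)) (a : A) : X * inc a = inc (X.fst a) := by
  apply DoubleCentralizer.ext
  apply Prod.ext
  · ext b
    change X.fst (a * b) = X.fst a * b
    exact fst_mul X a b
  · ext b
    change X.snd b * a = b * X.fst a
    exact X.central b a

lemma inc_mul (X : 𝓜(ℂ, A)) (a : A) : inc a * X = inc (X.snd a) := by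
  apply DoubleCentralizer.ext
  apply Prod.ext
  · ext b
    change a * X.fst b = X.snd a * b
    exact (X.central a b).symm
  · ext b
    change X.snd (b * a) = b * X.snd a
    exact snd_mul X b a

lemma inc_injective : Function.Injective (inc (A := A)) := by
  intro a b h
  have h1 : (inc a).fst = (inc b).fst := by rw [h]
  apply faithful_right
  intro y
  exact congrArg (fun f => f y) h1

lemma norm_inc (a : A) : ‖inc a‖ = ‖a‖ :=
  NonUnitalStarAlgHom.norm_map (inc (A := A)) inc_injective a

end Pool.Agent.Lib.MP_2001a4_an
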