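import Mathlib
import Pool.Agent.Lib.MP_2001a4_an.FinDim
import Pool.Agent.Lib.MP_2001a4_an.Strict
import Pool.Agent.Lib.MP_2001a4_an.Mtx

/-!
# The extension
-/

namespace Pool.Agent.Lib.MP_2001a4_an

open Filter Topology MultiplierAlgebra

universe u v

/-- All the data from which the extension is built. -/
structure ExtData (A : Type u) (C : Type v) [NonUnitalCStarAlgebra A] [CStarAlgebra C] where
  p : ℕ → A
  hp : ∀ k, Proj (p k)
  N : ℕ → ℕ
  hN : ∀ k, 0 < N k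
  θ : ∀ k, Matrix (Fin (N k)) (Fin (N k)) ℂ →⋆ₙₐ[ℂ] A
  hps : ∀ k, p (k + 1) = p k + θ k 1
  hpe : ∀ k, p k * θ k 1 = 0
  lim : ∀ a, Tendsto (fun k => p k * a) atTop (𝓝 a)
  full : ∀ k, ∀ J : Submodule ℂ A, (∀ a : A, ∀ x ∈ J, a * x ∈ J) →
        (∀ a : A, ∀ x ∈ J, x * a ∈ J) → ∀ M, M ≠ 0 → θ k M ∈ J → p k ∈ J
  Ck : ℕ → StarSubalgebra ℂ C
  mono : Monotone Ck
  closed : ∀ k, IsClosed (Ck k : Set C)
  dense : Dense (⋃ k, (Ck k : Set C))
  ρ : ∀ k, Ck k →⋆ₐ[ℂ] Matrix (Fin (N k)) (Fin (N k)) ℂ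
  hρ : ∀ k, Function.Injective (ρ k)

namespace ExtData

variable {A : Type u} {C : Type v} [NonUnitalCStarAlgebra A] [CStarAlgebra C] (D : ExtData A C)

/-- The differences of the approximate unit. -/
noncomputable def e (k : ℕ) : A := D.θ k 1

lemma e_proj (k : ℕ) : Proj (D.e k) :=
  ⟨by rw [e, ← map_star, star_one], by rw [e, ← map_mul, one_mul]⟩

lemma p_mul_p_succ (k : ℕ) : D.p k * D.p (k + 1) = D.p k := by
  rw [D.hps, mul_add, (D.hp k).2, D.hpe, add_zero]

lemma p_mul_p {k l : ℕ} (h : k ≤ l) : D.p k * D.p l = D.p k := by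
  induction l, h using Nat.le_induction with
  | base => exact (D.hp k).2
  | succ l _ ih => rw [← ih, mul_assoc, D.p_mul_p_succ]

lemma p_mul_p' {k l : ℕ} (h : k ≤ l) : D.p l * D.p k = D.p k := by
  have := congrArg star (D.p_mul_p h)
  rwa [star_mul, (D.hp k).1, (D.hp l).1] at this

lemma p_mul_e {k l : ℕ} (h : k ≤ l) : D.p k * D.e l = 0 := by
  rw [← D.p_mul_p h, mul_assoc]
  have := D.hpe l
  change D.p l * D.e l = 0 at this
  rw [this, mul_zero]

lemma e_mul_p {k l : ℕ} (h : k ≤ l) : D.e l * D.p k = 0 := by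
  have := congrArg star (D.p_mul_e h)
  rwa [star_mul, (D.hp k).1, (D.e_proj l).1, star_zero] at this

lemma e_eq (k : ℕ) : D.e k = D.p (k + 1) - D.p k := by
  rw [D.hps, e]; abel

lemma e_mul_e {k l : ℕ} (h : k ≠ l) : D.e k * D.e l = 0 := by
  rcases Nat.lt_or_gt_of_ne h with h | h
  · rw [D.e_eq k, sub_mul, D.p_mul_e h, D.p_mul_e h.le, sub_zero]
  · rw [D.e_eq l, mul_sub, D.e_mul_p h, D.e_mul_p h.le, sub_zero]

open Classical in
/-- The homomorphism `ψ_k`, extended by zero outside `C_k`. -/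
noncomputable def f (k : ℕ) (c : C) : A :=
  if h : c ∈ D.Ck k then D.θ k (D.ρ k ⟨c, h⟩) else 0

lemma f_def {k : ℕ} {c : C} (h : c ∈ D.Ck k) : D.f k c = D.θ k (D.ρ k ⟨c, h⟩) := dif_pos h

lemma f_add {k : ℕ} {c d : C} (hc : c ∈ D.Ck k) (hd : d ∈ D.Ck k) :
    D.f k (c + d) = D.f k c + D.f k d := by
  rw [D.f_def hc, D.f_def hd, D.f_def (add_mem hc hd), ← map_add, ← map_add]
  rfl

lemma f_mul {k : ℕ} {c d : C} (hc : c ∈ D.Ck k) (hd : d ∈ D.Ck k) :
    D.f k (c * d) = D.f k c * D.f k d := by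
  rw [D.f_def hc, D.f_def hd, D.f_def (mul_mem hc hd), ← map_mul, ← map_mul]
  rfl

lemma f_star {k : ℕ} {c : C} (hc : c ∈ D.Ck k) : D.f k (star c) = star (D.f k c) := by
  rw [D.f_def hc, D.f_def (star_mem hc), ← map_star, ← map_star]
  rfl

lemma f_smul {k : ℕ} {c : C} (a : ℂ) (hc : c ∈ D.Ck k) : D.f k (a • c) = a • D.f k c := by
  rw [D.f_def hc, D.f_def (SMulMemClass.smul_mem a hc), ← map_smul, ← map_smul]
  rfl

lemma f_one (k : ℕ) : D.f k 1 = D.e k := by
  rw [D.f_def (one_mem _), e]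
  congr 1
  exact map_one (D.ρ k)

lemma f_zero (k : ℕ) : D.f k 0 = 0 := by
  have := D.f_smul (k := k) 0 (one_mem (D.Ck k))
  rwa [zero_smul, zero_smul] at this

lemma f_mul_e {k : ℕ} {c : C} (hc : c ∈ D.Ck k) : D.f k c * D.e k = D.f k c := by
  rw [← D.f_one, ← D.f_mul hc (one_mem _), mul_one]

lemma e_mul_f {k : ℕ} {c : C} (hc : c ∈ D.Ck k) : D.e k * D.f k c = D.f k c := by
  rw [← D.f_one, ← D.f_mul (one_mem _) hc, one_mul]

lemma f_mul_f {k l : ℕ} (h : k ≠ l) {c d : C} (hc : c ∈ D.Ck k) (hd : d ∈ D.Ck l) :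
    D.f k c * D.f l d = 0 := by
  rw [← D.f_mul_e hc, ← D.e_mul_f hd, mul_assoc, ← mul_assoc (D.e k), D.e_mul_e h, zero_mul,
    mul_zero]

/-- Partial sums. -/
noncomputable def x (k n : ℕ) (c : C) : A := ∑ i ∈ Finset.range n, D.f (k + i) c

lemma x_succ (k n : ℕ) (c : C) : D.x k (n + 1) c = D.x k n c + D.f (k + n) c :=
  Finset.sum_range_succ _ _

lemma memC {k : ℕ} {c : C} (hc : c ∈ D.Ck k) (i : ℕ) : c ∈ D.Ck (k + i) :=
  D.mono (Nat.le_add_right k i) hc

/-- Partial sums as a star homomorphism. -/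
noncomputable def xHom (k n : ℕ) : D.Ck k →⋆ₙₐ[ℂ] A where
  toFun c := D.x k n c
  map_smul' a c := by
    simp only [x, Finset.smul_sum, MonoidHom.id_apply]
    refine Finset.sum_congr rfl fun i _ => ?_
    exact D.f_smul a (D.memC c.2 i)
  map_zero' := by
    simp only [x]
    refine Finset.sum_eq_zero fun i _ => ?_
    exact D.f_zero _
  map_add' c d := by
    simp only [x, ← Finset.sum_add_distrib]
    refine Finset.sum_congr rfl fun i _ => ?_
    exact D.f_add (D.memC c.2 i) (D.memC d.2 i)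
  map_mul' c d := by
    simp only [x, Finset.sum_mul_sum]
    refine Finset.sum_congr rfl fun i hi => ?_
    rw [Finset.sum_eq_single i]
    · exact D.f_mul (D.memC c.2 i) (D.memC d.2 i)
    · intro j _ hj
      exact D.f_mul_f (by omega) (D.memC c.2 i) (D.memC d.2 j)
    · intro h; exact absurd hi h
  map_star' c := by
    simp only [x, star_sum]
    refine Finset.sum_congr rfl fun i _ => ?_
    exact D.f_star (D.memC c.2 i)

lemma x_norm {k : ℕ} (n : ℕ) {c : C} (hc : c ∈ D.Ck k) : ‖D.x k n c‖ ≤ ‖c‖ := by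
  have := D.closed k
  exact NonUnitalStarAlgHom.norm_apply_le (D.xHom k n) ⟨c, hc⟩

lemma f_norm {k : ℕ} {c : C} (hc : c ∈ D.Ck k) : ‖D.f k c‖ ≤ ‖c‖ := by
  have := D.x_norm 1 hc
  rwa [x_succ, x, Finset.sum_range_zero, zero_add, add_zero] at this

lemma x_star {k : ℕ} (n : ℕ) {c : C} (hc : c ∈ D.Ck k) : D.x k n (star c) = star (D.x k n c) := by
  simp only [x, star_sum]
  refine Finset.sum_congr rfl fun i _ => ?_
  exact D.f_star (D.memC hc i)

lemma x_mul_p {k n j : ℕ} (h : j ≤ n) {c : C} (hc : c ∈ D.Ck k) :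
    D.x k n c * D.p j = D.x k j c * D.p j := by
  induction n, h using Nat.le_induction with
  | base => rfl
  | succ n hn ih =>
    rw [x_succ, add_mul, ih, ← D.f_mul_e (D.memC hc n), mul_assoc, D.e_mul_p (by omega),
      mul_zero, add_zero]

lemma x_mul_e {k n j : ℕ} (h : j < n) {c : C} (hc : c ∈ D.Ck k) :
    D.x k n c * D.e (k + j) = D.f (k + j) c := by
  rw [x, Finset.sum_mul, Finset.sum_eq_single j]
  · exact D.f_mul_e (D.memC hc j)
  · intro i _ hij
    rw [← D.f_mul_e (D.memC hc i), mul_assoc, D.e_mul_e (by omega), mul_zero]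
  · intro h'; exact absurd (Finset.mem_range.2 h) h'

lemma x_cauchy {k : ℕ} {c : C} (hc : c ∈ D.Ck k) (a : A) :
    CauchySeq (fun n => D.x k n c * a) := by
  rw [Metric.cauchySeq_iff']
  intro ε hε
  have hδ : 0 < ε / (2 * ‖c‖ + 1) := by positivity
  obtain ⟨j, hj⟩ := (Metric.tendsto_atTop.1 (D.lim a)) _ hδ
  have hj' := hj j le_rfl
  rw [dist_comm, dist_eq_norm] at hj'
  refine ⟨j, fun n hn => ?_⟩
  rw [dist_eq_norm]
  have h1 : D.x k n c * a - D.x k j c * a
      = (D.x k n c - D.x k j c) * (a - D.p j * a) := by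
    rw [mul_sub, ← mul_assoc _ (D.p j) a, sub_mul, sub_mul, D.x_mul_p hn hc, sub_self, zero_mul,
      sub_zero]
  rw [h1]
  have h2 : ‖D.x k n c - D.x k j c‖ ≤ 2 * ‖c‖ := by
    refine (norm_sub_le _ _).trans ?_
    have := D.x_norm n hc
    have := D.x_norm j hc
    linarith
  calc ‖(D.x k n c - D.x k j c) * (a - D.p j * a)‖
      ≤ ‖D.x k n c - D.x k j c‖ * ‖a - D.p j * a‖ := norm_mul_le _ _
    _ ≤ (2 * ‖c‖) * ‖a - D.p j * a‖ := mul_le_mul_of_nonneg_right h2 (norm_nonneg _)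
    _ ≤ (2 * ‖c‖ + 1) * ‖a - D.p j * a‖ :=
      mul_le_mul_of_nonneg_right (by linarith) (norm_nonneg _)
    _ < (2 * ‖c‖ + 1) * (ε / (2 * ‖c‖ + 1)) := mul_lt_mul_of_pos_left hj' (by positivity)
    _ = ε := by field_simp

/-- The basic relation between multipliers and elements of `C`. -/
def Rel (k : ℕ) (X : 𝓜(ℂ, A)) (c : C) : Prop :=
  c ∈ D.Ck k ∧ ∀ j, k ≤ j → X * inc (D.e j) = inc (D.f j c) ∧ inc (D.e j) * X = inc (D.f j c)

lemma exists_lift {k : ℕ} {c : C} (hc : c ∈ D.Ck k) :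
    ∃ X : 𝓜(ℂ, A), ‖X‖ ≤ ‖c‖ ∧ D.Rel k X c := by
  have hcs : star c ∈ D.Ck k := star_mem hc
  have hr : ∀ a, CauchySeq (fun n => a * D.x k n c) := by
    intro a
    have h1 := D.x_cauchy hcs (star a)
    have h2 : UniformContinuous (star : A → A) :=
      ((starₗᵢ ℂ : A ≃ₗᵢ⋆[ℂ] A).isometry).uniformContinuous
    have h3 := h2.comp_cauchySeq h1
    have h4 : (fun n => a * D.x k n c) = (star : A → A) ∘ (fun n => D.x k n (star c) * star a) := by
      funext n
      rw [Function.comp_apply, D.x_star n hc, ← star_mul, star_star]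
    rw [h4]
    exact h3
  obtain ⟨X, hX1, hX2, hX3⟩ := exists_strict_limit (fun n => D.x k n c) ‖c‖ (norm_nonneg _)
    (fun n => D.x_norm n hc) (D.x_cauchy hc) hr
  refine ⟨X, hX1, hc, fun j hj => ?_⟩
  obtain ⟨i, rfl⟩ := Nat.exists_eq_add_of_le hj
  constructor
  · rw [mul_inc]
    congr 1
    refine tendsto_nhds_unique (hX2 (D.e (k + i))) ?_
    refine tendsto_const_nhds.congr' ?_
    filter_upwards [eventually_gt_atTop i] with n hn
    exact (D.x_mul_e hn hc).symm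
  · rw [inc_mul]
    congr 1
    refine tendsto_nhds_unique (hX3 (D.e (k + i))) ?_
    refine tendsto_const_nhds.congr' ?_
    filter_upwards [eventually_gt_atTop i] with n hn
    have h1 := congrArg star (D.x_mul_e hn hcs)
    rw [star_mul, (D.e_proj _).1, D.x_star n hc, star_star, D.f_star (D.memC hc i),
      star_star] at h1
    exact h1.symm

lemma Rel.mono {k l : ℕ} {X : 𝓜(ℂ, A)} {c : C} (h : D.Rel k X c) (hkl : k ≤ l) :
    D.Rel l X c :=
  ⟨D.mono hkl h.1, fun j hj => h.2 j (hkl.trans hj)⟩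

lemma Rel.mul {k : ℕ} {X Y : 𝓜(ℂ, A)} {c d : C} (h : D.Rel k X c) (h' : D.Rel k Y d) :
    D.Rel k (X * Y) (c * d) := by
  refine ⟨mul_mem h.1 h'.1, fun j hj => ?_⟩
  have hc : c ∈ D.Ck j := D.mono hj h.1
  have hd : d ∈ D.Ck j := D.mono hj h'.1
  constructor
  · rw [mul_assoc, (h'.2 j hj).1, ← D.e_mul_f hd, map_mul, ← mul_assoc, (h.2 j hj).1,
      ← map_mul, D.f_mul hc hd]
  · rw [← mul_assoc, (h.2 j hj).2, ← D.f_mul_e hc, map_mul, mul_assoc, (h'.2 j hj).2,
      ← map_mul, D.f_mul hc hd]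

lemma Rel.add {k : ℕ} {X Y : 𝓜(ℂ, A)} {c d : C} (h : D.Rel k X c) (h' : D.Rel k Y d) :
    D.Rel k (X + Y) (c + d) := by
  refine ⟨add_mem h.1 h'.1, fun j hj => ?_⟩
  have hc : c ∈ D.Ck j := D.mono hj h.1
  have hd : d ∈ D.Ck j := D.mono hj h'.1
  constructor
  · rw [add_mul, (h.2 j hj).1, (h'.2 j hj).1, ← map_add, D.f_add hc hd]
  · rw [mul_add, (h.2 j hj).2, (h'.2 j hj).2, ← map_add, D.f_add hc hd]

lemma Rel.star {k : ℕ} {X : 𝓜(ℂ, A)} {c : C} (h : D.Rel k X c) :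
    D.Rel k (star X) (star c) := by
  refine ⟨star_mem h.1, fun j hj => ?_⟩
  have hc : c ∈ D.Ck j := D.mono hj h.1
  have he : Star.star (inc (D.e j)) = inc (D.e j) := by
    rw [← map_star, (D.e_proj j).1]
  constructor
  · have := congrArg Star.star (h.2 j hj).2
    rwa [star_mul, he, ← map_star, ← D.f_star hc] at this
  · have := congrArg Star.star (h.2 j hj).1
    rwa [star_mul, he, ← map_star, ← D.f_star hc] at this

lemma Rel.smul_one (a : ℂ) : D.Rel 0 (a • 1) (a • 1) := by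
  refine ⟨SMulMemClass.smul_mem a (one_mem _), fun j _ => ?_⟩
  rw [D.f_smul a (one_mem _), D.f_one, map_smul]
  constructor
  · rw [smul_mul_assoc, one_mul]
  · rw [mul_smul_comm, mul_one]

lemma Rel.inc_p (k : ℕ) (a : A) : D.Rel k (inc (D.p k * a * D.p k)) 0 := by
  refine ⟨zero_mem _, fun j hj => ?_⟩
  rw [D.f_zero, map_zero]
  constructor
  · rw [← map_mul, mul_assoc, D.p_mul_e hj, mul_zero, map_zero]
  · rw [← map_mul, ← mul_assoc, ← mul_assoc, D.e_mul_p hj, zero_mul, zero_mul, map_zero]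

/-- The dense subalgebra. -/
noncomputable def B0 : StarSubalgebra ℂ (𝓜(ℂ, A) × C) where
  carrier := {z | ∃ k, D.Rel k z.1 z.2}
  mul_mem' := by
    rintro z w ⟨k, hk⟩ ⟨l, hl⟩
    exact ⟨max k l, Rel.mul D (Rel.mono D hk (le_max_left _ _)) (Rel.mono D hl (le_max_right _ _))⟩
  one_mem' := by
    refine ⟨0, ?_⟩
    have := Rel.smul_one D 1
    rwa [one_smul, one_smul] at this
  add_mem' := by
    rintro z w ⟨k, hk⟩ ⟨l, hl⟩
    exact ⟨max k l, Rel.add D (Rel.mono D hk (le_max_left _ _)) (Rel.mono D hl (le_max_right _ _))⟩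
  zero_mem' := by
    refine ⟨0, ?_⟩
    have := Rel.smul_one D 0
    rwa [zero_smul, zero_smul] at this
  algebraMap_mem' := by
    intro a
    refine ⟨0, ?_⟩
    rw [Algebra.algebraMap_eq_smul_one]
    exact Rel.smul_one D a
  star_mem' := by
    rintro z ⟨k, hk⟩
    exact ⟨k, Rel.star D hk⟩

lemma mem_B0 {z : 𝓜(ℂ, A) × C} : z ∈ D.B0 ↔ ∃ k, D.Rel k z.1 z.2 := Iff.rfl

/-- The algebra `B`. -/
noncomputable def B : StarSubalgebra ℂ (𝓜(ℂ, A) × C) := D.B0.topologicalClosure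

lemma B_closed : IsClosed (D.B : Set (𝓜(ℂ, A) × C)) := D.B0.isClosed_topologicalClosure

noncomputable instance : CStarAlgebra D.B := StarSubalgebra.cstarAlgebra D.B (h_closed := D.B_closed)

lemma B0_le : ∀ z ∈ D.B0, z ∈ D.B := fun z hz => D.B0.le_topologicalClosure hz

lemma mem_B_iff {z : 𝓜(ℂ, A) × C} :
    z ∈ D.B ↔ ∀ ε > 0, ∃ w ∈ D.B0, ‖z - w‖ < ε := by
  have h1 : z ∈ D.B ↔ z ∈ closure (D.B0 : Set (𝓜(ℂ, A) × C)) := Iff.rfl
  rw [h1, Metric.mem_closure_iff]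
  simp only [dist_eq_norm]
  rfl

lemma inc_mem (a : A) : (inc a, (0 : C)) ∈ D.B := by
  rw [mem_B_iff]
  intro ε hε
  have h1 := (Metric.tendsto_atTop.1 (D.lim a)) (ε / 2) (by positivity)
  have h2 := (Metric.tendsto_atTop.1 (D.lim (star a))) (ε / 2) (by positivity)
  obtain ⟨j1, hj1⟩ := h1
  obtain ⟨j2, hj2⟩ := h2
  set k := max j1 j2 with hk
  have h3 := hj1 k (le_max_left _ _)
  have h4 := hj2 k (le_max_right _ _)
  rw [dist_comm, dist_eq_norm] at h3 h4
  refine ⟨(inc (D.p k * a * D.p k), 0), ⟨k, Rel.inc_p D k a⟩, ?_⟩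
  have h5 : ((inc a, (0 : C)) : 𝓜(ℂ, A) × C) - (inc (D.p k * a * D.p k), 0)
      = (inc (a - D.p k * a * D.p k), 0) := by
    rw [Prod.mk_sub_mk, sub_zero, map_sub]
  rw [h5, Prod.norm_def, norm_zero, norm_inc]
  rw [max_eq_left (norm_nonneg _)]
  have h6 : a - D.p k * a * D.p k = (a - D.p k * a) + D.p k * star (star a - D.p k * star a) := by
    rw [star_sub, star_mul, star_star, (D.hp k).1, mul_sub, ← mul_assoc]; abel
  rw [h6]
  calc ‖(a - D.p k * a) + D.p k * star (star a - D.p k * star a)‖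
      ≤ ‖a - D.p k * a‖ + ‖D.p k * star (star a - D.p k * star a)‖ := norm_add_le _ _
    _ ≤ ‖a - D.p k * a‖ + ‖D.p k‖ * ‖star (star a - D.p k * star a)‖ := by
      gcongr; exact norm_mul_le _ _
    _ ≤ ‖a - D.p k * a‖ + 1 * ‖star a - D.p k * star a‖ := by
      rw [norm_star]
      gcongr
      exact proj_norm_le_one (D.hp k)
    _ < ε := by linarith

/-- The inclusion of `A`. -/
noncomputable def ι : A →⋆ₙₐ[ℂ] D.B where
  toFun a := ⟨(inc a, 0), D.inc_mem a⟩
  map_smul' c a := by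
    apply Subtype.ext
    change ((inc (c • a), (0 : C)) : 𝓜(ℂ, A) × C) = c • ((inc a, (0 : C)) : 𝓜(ℂ, A) × C)
    rw [map_smul, Prod.smul_mk, smul_zero]
  map_zero' := by
    apply Subtype.ext
    change ((inc (0 : A), (0 : C)) : 𝓜(ℂ, A) × C) = 0
    rw [map_zero]; rfl
  map_add' a b := by
    apply Subtype.ext
    change ((inc (a + b), (0 : C)) : 𝓜(ℂ, A) × C) = (inc a, 0) + (inc b, 0)
    rw [map_add, Prod.mk_add_mk, add_zero]
  map_mul' a b := by
    apply Subtype.ext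
    change ((inc (a * b), (0 : C)) : 𝓜(ℂ, A) × C) = (inc a, 0) * (inc b, 0)
    rw [map_mul, Prod.mk_mul_mk, mul_zero]
  map_star' a := by
    apply Subtype.ext
    change ((inc (star a), (0 : C)) : 𝓜(ℂ, A) × C) = star (inc a, 0)
    rw [map_star, Prod.star_def, star_zero]

lemma ι_coe (a : A) : ((D.ι a : D.B) : 𝓜(ℂ, A) × C) = (inc a, 0) := rfl

/-- The quotient map onto `C`. -/
noncomputable def π : D.B →⋆ₐ[ℂ] C where
  toFun b := (b : 𝓜(ℂ, A) × C).2
  map_one' := rfl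
  map_mul' _ _ := rfl
  map_zero' := rfl
  map_add' _ _ := rfl
  commutes' _ := rfl
  map_star' _ := rfl

lemma π_def (b : D.B) : D.π b = (b : 𝓜(ℂ, A) × C).2 := rfl

lemma ι_injective : Function.Injective D.ι := by
  intro a b h
  have h1 : ((inc a, (0 : C)) : 𝓜(ℂ, A) × C) = (inc b, 0) := congrArg Subtype.val h
  exact inc_injective (Prod.ext_iff.1 h1).1

lemma π_surjective : Function.Surjective D.π := by
  let g : NormedAddGroupHom D.B C :=
    { toFun := D.π
      map_add' := map_add D.π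
      bound' := ⟨1, fun b => by
        rw [one_mul]
        exact norm_snd_le (b : 𝓜(ℂ, A) × C)⟩ }
  let K : AddSubgroup C :=
    { carrier := ⋃ k, (D.Ck k : Set C)
      add_mem' := by
        intro a b ha hb
        obtain ⟨k, hk⟩ := Set.mem_iUnion.1 ha
        obtain ⟨l, hl⟩ := Set.mem_iUnion.1 hb
        exact Set.mem_iUnion.2 ⟨max k l, add_mem (D.mono (le_max_left _ _) hk)
          (D.mono (le_max_right _ _) hl)⟩
      zero_mem' := Set.mem_iUnion.2 ⟨0, zero_mem _⟩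
      neg_mem' := by
        intro a ha
        obtain ⟨k, hk⟩ := Set.mem_iUnion.1 ha
        exact Set.mem_iUnion.2 ⟨k, neg_mem hk⟩ }
  have hK : g.SurjectiveOnWith K 1 := by
    intro c hc
    obtain ⟨k, hk⟩ := Set.mem_iUnion.1 hc
    obtain ⟨X, hX1, hX2⟩ := D.exists_lift hk
    refine ⟨⟨(X, c), D.B0_le _ ⟨k, hX2⟩⟩, rfl, ?_⟩
    rw [one_mul]
    change ‖((X, c) : 𝓜(ℂ, A) × C)‖ ≤ ‖c‖
    rw [Prod.norm_def]
    exact max_le hX1 le_rfl
  have h1 := controlled_closure_of_complete one_pos one_pos hK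
  intro c
  have hc : c ∈ K.topologicalClosure := by
    change c ∈ closure (⋃ k, (D.Ck k : Set C))
    rw [D.dense.closure_eq]
    exact Set.mem_univ c
  obtain ⟨b, hb, _⟩ := h1 c hc
  exact ⟨b, hb⟩

lemma Rel.norm_le {k : ℕ} {X : 𝓜(ℂ, A)} {c : C} (h : D.Rel k X c) :
    ‖X - X * inc (D.p k)‖ ≤ ‖c‖ := by
  rw [← DoubleCentralizer.norm_fst]
  refine ContinuousLinearMap.opNorm_le_bound _ (norm_nonneg _) fun a => ?_
  have h1 : Tendsto (fun n => D.x k n c * a) atTop (𝓝 ((X - X * inc (D.p k)).fst a)) := by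
    have h2 : Tendsto (fun n => (X - X * inc (D.p k)).fst (D.p (k + n) * a)) atTop
        (𝓝 ((X - X * inc (D.p k)).fst a)) := by
      refine ((X - X * inc (D.p k)).fst.continuous.tendsto a).comp ?_
      exact (D.lim a).comp (tendsto_add_atTop_nat k |>.congr fun n => by rw [add_comm])
    refine h2.congr fun n => ?_
    have h3 : ∀ n, X * inc (D.p (k + n)) - X * inc (D.p k) = inc (D.x k n c) := by
      intro n
      induction n with
      | zero => rw [add_zero, sub_self, x, Finset.sum_range_zero, map_zero]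
      | succ n ih =>
        rw [x_succ, map_add, ← ih, ← (h.2 (k + n) (by omega)).1, ← add_assoc, D.hps]
        change X * inc (D.p (k + n) + D.e (k + n)) - _ = _
        rw [map_add, mul_add]; abel
    have h4 : (X - X * inc (D.p k)) * inc (D.p (k + n) * a) = inc (D.x k n c * a) := by
      rw [map_mul, ← mul_assoc, sub_mul, mul_assoc X (inc (D.p k)), ← map_mul,
        D.p_mul_p (by omega), h3, ← map_mul]
    rw [mul_inc] at h4
    exact inc_injective h4
  refine le_of_tendsto h1.norm (Eventually.of_forall fun n => ?_)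
  exact (norm_mul_le _ _).trans (mul_le_mul_of_nonneg_right (D.x_norm n h.1) (norm_nonneg _))

lemma isClosed_range_inc : IsClosed (Set.range (inc (A := A))) :=
  (NonUnitalStarAlgHom.isometry (inc (A := A)) inc_injective).isClosedEmbedding.isClosed_range

lemma range_ι : Set.range D.ι = {b : D.B | D.π b = 0} := by
  ext b
  constructor
  · rintro ⟨a, rfl⟩
    rfl
  · intro hb
    have hb' : (b : 𝓜(ℂ, A) × C).2 = 0 := hb
    have hX : (b : 𝓜(ℂ, A) × C).1 ∈ Set.range (inc (A := A)) := by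
      rw [← isClosed_range_inc.closure_eq, Metric.mem_closure_iff]
      intro ε hε
      obtain ⟨w, ⟨k, hk⟩, hw⟩ := D.mem_B_iff.1 b.2 (ε / 2) (by positivity)
      rw [Prod.norm_def] at hw
      have h1 := (le_max_left _ _).trans_lt hw
      have h2 := (le_max_right _ _).trans_lt hw
      rw [Prod.fst_sub] at h1
      rw [Prod.snd_sub, hb', zero_sub, norm_neg] at h2
      refine ⟨inc (w.1.fst (D.p k)), ⟨_, rfl⟩, ?_⟩
      rw [dist_eq_norm, ← mul_inc]
      have h3 : (b : 𝓜(ℂ, A) × C).1 - w.1 * inc (D.p k)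
          = ((b : 𝓜(ℂ, A) × C).1 - w.1) + (w.1 - w.1 * inc (D.p k)) := by abel
      rw [h3]
      have h4 := Rel.norm_le D hk
      calc _ ≤ ‖(b : 𝓜(ℂ, A) × C).1 - w.1‖ + ‖w.1 - w.1 * inc (D.p k)‖ := norm_add_le _ _
        _ < ε := by linarith
    obtain ⟨a, ha⟩ := hX
    refine ⟨a, Subtype.ext ?_⟩
    rw [ι_coe]
    exact Prod.ext ha hb'.symm

open scoped Matrix.Norms.L2Operator in
lemma stenotic (I : TwoSidedIdeal D.B) (hI : IsClosed (I : Set D.B)) :
    Set.range D.ι ⊆ (I : Set D.B) ∨ (I : Set D.B) ⊆ Set.range D.ι := by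
  by_cases hsub : (I : Set D.B) ⊆ Set.range D.ι
  · exact Or.inr hsub
  refine Or.inl ?_
  rw [Set.not_subset] at hsub
  obtain ⟨b, hbI, hb⟩ := hsub
  have hbI' : b ∈ I := hbI
  have hc0 : D.π b ≠ 0 := by
    intro h
    apply hb
    rw [range_ι]
    exact h
  -- the ideal of `A`
  let J : Submodule ℂ A :=
    { carrier := {a | D.ι a ∈ I}
      add_mem' := by
        intro a a' ha ha'
        have h1 : D.ι a ∈ I := ha
        have h2 : D.ι a' ∈ I := ha'
        change D.ι (a + a') ∈ I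
        rw [map_add]
        exact I.add_mem h1 h2
      zero_mem' := by
        change D.ι 0 ∈ I
        rw [map_zero]; exact I.zero_mem
      smul_mem' := by
        intro c a ha
        have h1 : D.ι a ∈ I := ha
        change D.ι (c • a) ∈ I
        rw [map_smul, ← one_mul (D.ι a), ← smul_mul_assoc]
        exact I.mul_mem_left _ _ h1 }
  have hJmem : ∀ a, a ∈ J ↔ D.ι a ∈ I := fun a => Iff.rfl
  have hιcont : Continuous D.ι :=
    (NonUnitalStarAlgHom.isometry D.ι D.ι_injective).continuous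
  have hJc : IsClosed (J : Set A) := hI.preimage hιcont
  have hJl : ∀ a : A, ∀ x ∈ J, a * x ∈ J := by
    intro a x hx
    rw [hJmem] at hx ⊢
    rw [map_mul]
    exact I.mul_mem_left _ _ hx
  have hJr : ∀ a : A, ∀ x ∈ J, x * a ∈ J := by
    intro a x hx
    rw [hJmem] at hx ⊢
    rw [map_mul]
    exact I.mul_mem_right _ _ hx
  -- approximation
  set ε : ℝ := ‖D.π b‖ / 3 with hε
  have hε0 : 0 < ε := by
    have := norm_pos_iff.2 hc0
    positivity
  obtain ⟨w, ⟨k, hk⟩, hw⟩ := D.mem_B_iff.1 b.2 ε hε0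
  rw [Prod.norm_def] at hw
  have h1 := (le_max_left _ _).trans_lt hw
  have h2 := (le_max_right _ _).trans_lt hw
  rw [Prod.fst_sub] at h1
  rw [Prod.snd_sub] at h2
  have hwc : ε < ‖w.2‖ := by
    have h3 : ‖D.π b‖ ≤ ‖(b : 𝓜(ℂ, A) × C).2 - w.2‖ + ‖w.2‖ := by
      rw [π_def]
      simpa using norm_add_le ((b : 𝓜(ℂ, A) × C).2 - w.2) w.2
    have h4 : ‖D.π b‖ = 3 * ε := by rw [hε]; ring
    linarith
  have hp : ∀ j, k ≤ j → D.p j ∈ J := by
    intro j hj
    have hcj : w.2 ∈ D.Ck j := D.mono hj hk.1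
    have hclosed := D.closed j
    -- the element of the ideal
    have h5 : D.ι ((b : 𝓜(ℂ, A) × C).1.snd (D.e j)) ∈ I := by
      have h6 : D.ι ((b : 𝓜(ℂ, A) × C).1.snd (D.e j)) = D.ι (D.e j) * b := by
        apply Subtype.ext
        rw [ι_coe]
        change _ = ((inc (D.e j), (0 : C)) : 𝓜(ℂ, A) × C) * (b : 𝓜(ℂ, A) × C)
        apply Prod.ext
        · exact (inc_mul _ _).symm
        · exact (zero_mul _).symm
      rw [h6]
      exact I.mul_mem_left _ _ hbI'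
    have h7 : ‖(b : 𝓜(ℂ, A) × C).1.snd (D.e j) - D.θ j (D.ρ j ⟨w.2, hcj⟩)‖ ≤ ε := by
      rw [← D.f_def hcj, ← norm_inc, map_sub, ← inc_mul, ← (hk.2 j hj).2, ← mul_sub]
      calc ‖inc (D.e j) * ((b : 𝓜(ℂ, A) × C).1 - w.1)‖
          ≤ ‖inc (D.e j)‖ * ‖(b : 𝓜(ℂ, A) × C).1 - w.1‖ := norm_mul_le _ _
        _ ≤ 1 * ‖(b : 𝓜(ℂ, A) × C).1 - w.1‖ := by
          gcongr
          rw [norm_inc]
          exact proj_norm_le_one (D.e_proj j)
        _ ≤ ε := by rw [one_mul]; exact h1.le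
    have h8 : ‖D.ρ j ⟨w.2, hcj⟩‖ = ‖w.2‖ :=
      NonUnitalStarAlgHom.norm_map (D.ρ j) (D.hρ j) ⟨w.2, hcj⟩
    obtain ⟨M', hM', hM'J⟩ := mtx (D.hN j) (D.θ j) hJc hJl hJr (D.ρ j ⟨w.2, hcj⟩)
      (by rw [h8]; exact hwc) h5 h7
    exact D.full j J hJl hJr M' hM' hM'J
  rintro _ ⟨a, rfl⟩
  change a ∈ J
  refine hJc.mem_of_tendsto (D.lim a) ?_
  filter_upwards [eventually_ge_atTop k] with j hj
  exact hJr _ _ (hp j hj)

end ExtData

end Pool.Agent.Lib.MP_2001a4_an
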