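import Mathlib
import Pool.Agent.Lib.MP_2001a4_an.FinDim

/-!
# Faithful matrix representations of finite-dimensional C*-algebras
-/

namespace Pool.Agent.Lib.MP_2001a4_an

open Finset

lemma exists_matRep (R : Type*) [CStarAlgebra R] [Nontrivial R] [FiniteDimensional ℂ R] :
    ∃ (N : ℕ) (_ : 0 < N) (ρ : R →⋆ₐ[ℂ] Matrix (Fin N) (Fin N) ℂ), Function.Injective ρ := by
  classical
  obtain ⟨rep, v, hrv, hrep0, -⟩ := exists_reps (R := R)
  obtain ⟨s, hsmin, hsorth, hssum⟩ := exists_decomp (1 : R) ⟨star_one R, one_mul 1⟩
  let ε : Fin s.card ≃ s := s.equivFin.symm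
  let f : Fin s.card → R := fun i => (ε i : R)
  have hfmin : ∀ i, MinProj (f i) := fun i => hsmin _ (ε i).2
  have hforth : ∀ i j, i ≠ j → f i * f j = 0 := fun i j hij =>
    hsorth _ (ε i).2 _ (ε j).2 (fun h => hij (ε.injective (Subtype.ext h)))
  have hfsum : ∑ i, f i = 1 := by
    rw [← hssum, ← Finset.sum_coe_sort s]
    exact Equiv.sum_comp ε (fun x : s => (x : R))
  let w : Fin s.card → R := fun i => v (f i)
  let r : Fin s.card → R := fun i => rep (f i)
  have hr : ∀ i, MinProj (r i) := fun i => (hrv _ (hfmin i)).1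
  have hw1 : ∀ i, w i * star (w i) = f i := fun i => (hrv _ (hfmin i)).2.1
  have hw2 : ∀ i, star (w i) * w i = r i := fun i => (hrv _ (hfmin i)).2.2
  have hfw : ∀ i, f i * w i = w i := fun i => mul_left_of_mul_star (hfmin i).1 (hw1 i)
  have hwr : ∀ i, w i * r i = w i := fun i => mul_right_of_star_mul (hr i).1 (hw2 i)
  have hrw : ∀ i, r i * star (w i) = star (w i) := by
    intro i
    have := congrArg star (hwr i)
    rwa [star_mul, (hr i).1.1] at this
  have hwf : ∀ i, star (w i) * f i = star (w i) := by
    intro i
    have := congrArg star (hfw i)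
    rwa [star_mul, (hfmin i).1.1] at this
  have hr0 : ∀ i j, r i ≠ r j → ∀ x, r i * x * r j = 0 := fun i j h x =>
    hrep0 _ _ (hfmin i) (hfmin j) h x
  have hcomp : ∀ x i j, star (w i) * x * w j = r i * (star (w i) * x * w j) * r j := by
    intro x i j
    calc star (w i) * x * w j = (r i * star (w i)) * x * (w j * r j) := by rw [hrw, hwr]
      _ = r i * (star (w i) * x * w j) * r j := by simp only [mul_assoc]
  have hex : ∀ x i j, ∃ c : ℂ, star (w i) * x * w j = c • r i ∧ (r i ≠ r j → c = 0) := by
    intro x i j
    by_cases h : r i = r j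
    · obtain ⟨c, hc⟩ := (hr i).2.2 (star (w i) * x * w j)
      refine ⟨c, ?_, fun h' => absurd h h'⟩
      rw [← hc]
      nth_rewrite 1 [hcomp x i j]
      rw [← h]
    · refine ⟨0, ?_, fun _ => rfl⟩
      rw [hcomp x i j, hr0 i j h, zero_smul]
  choose c hc hc0 using hex
  have huniq : ∀ i (a b : ℂ), a • r i = b • r i → a = b := by
    intro i a b h
    have h1 : (a - b) • r i = 0 := by rw [sub_smul, h, sub_self]
    rcases smul_eq_zero.1 h1 with h2 | h2
    · exact sub_eq_zero.1 h2
    · exact absurd h2 (hr i).2.1
  have hprod : ∀ x y i k j, (c x i k • r i) * (c y k j • r k) = (c x i k * c y k j) • r i := by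
    intro x y i k j
    by_cases h : r i = r k
    · rw [smul_mul_smul_comm, ← h, (hr i).1.2]
    · rw [hc0 x i k h, zero_smul, zero_mul, zero_mul, zero_smul]
  have hmul : ∀ x y i j, c (x * y) i j = ∑ k, c x i k * c y k j := by
    intro x y i j
    apply huniq i
    rw [← hc, Finset.sum_smul]
    calc star (w i) * (x * y) * w j = star (w i) * (x * 1 * y) * w j := by rw [mul_one]
      _ = ∑ k, star (w i) * (x * f k * y) * w j := by
        rw [← hfsum, Finset.mul_sum, Finset.sum_mul, Finset.mul_sum, Finset.sum_mul]
      _ = ∑ k, (c x i k * c y k j) • r i := by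
        refine Finset.sum_congr rfl fun k _ => ?_
        rw [← hprod, ← hc, ← hc, ← hw1]
        simp only [mul_assoc]
  have hone : ∀ i j, c 1 i j = if i = j then 1 else 0 := by
    intro i j
    apply huniq i
    rw [← hc, mul_one]
    split_ifs with h
    · rw [← h, hw2, one_smul]
    · rw [← hwf, ← hfw j, mul_assoc, ← mul_assoc (f i), hforth i j h, zero_mul, mul_zero,
        zero_smul]
  have hsmul : ∀ (a : ℂ) x i j, c (a • x) i j = a * c x i j := by
    intro a x i j
    apply huniq i
    rw [← hc, mul_smul_comm, smul_mul_assoc, hc, smul_smul]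
  have hadd : ∀ x y i j, c (x + y) i j = c x i j + c y i j := by
    intro x y i j
    apply huniq i
    rw [← hc, mul_add, add_mul, hc, hc, add_smul]
  have hstar : ∀ x i j, c (star x) i j = star (c x j i) := by
    intro x i j
    by_cases h : r i = r j
    · apply huniq i
      rw [← hc]
      have h1 := congrArg star (hc x j i)
      rw [star_mul, star_mul, star_star, star_smul, (hr j).1.1, ← h, ← mul_assoc] at h1
      exact h1
    · rw [hc0 _ i j h, hc0 _ j i (Ne.symm h), star_zero]
  have hzero : ∀ i j, c 0 i j = 0 := by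
    intro i j
    have := hsmul 0 0 i j
    rwa [zero_smul, zero_mul] at this
  have hpos : 0 < s.card := by
    rw [Finset.card_pos]
    by_contra h
    rw [Finset.not_nonempty_iff_eq_empty] at h
    rw [h, Finset.sum_empty] at hssum
    exact zero_ne_one hssum
  let ρ : R →⋆ₐ[ℂ] Matrix (Fin s.card) (Fin s.card) ℂ :=
    { toFun := fun x => Matrix.of fun i j => c x i j
      map_one' := by
        ext i j
        rw [Matrix.of_apply, hone, Matrix.one_apply]
      map_mul' := by
        intro x y
        ext i j
        rw [Matrix.of_apply, hmul, Matrix.mul_apply]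
        rfl
      map_zero' := by
        ext i j
        rw [Matrix.of_apply, hzero]
        rfl
      map_add' := by
        intro x y
        ext i j
        rw [Matrix.of_apply, hadd]
        rfl
      commutes' := by
        intro a
        ext i j
        rw [Matrix.of_apply, Algebra.algebraMap_eq_smul_one, hsmul, hone,
          Algebra.algebraMap_eq_smul_one, Matrix.smul_apply, Matrix.one_apply, smul_eq_mul]
      map_star' := by
        intro x
        ext i j
        rw [Matrix.of_apply, hstar]
        rfl }
  refine ⟨s.card, hpos, ρ, ?_⟩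
  rw [injective_iff_map_eq_zero]
  intro x hx
  have hcx : ∀ i j, c x i j = 0 := fun i j => congrFun (congrFun hx i) j
  have h1 : ∀ i j, f i * x * f j = 0 := by
    intro i j
    rw [← hw1 i, ← hw1 j]
    have h2 : w i * star (w i) * x * (w j * star (w j))
        = w i * (star (w i) * x * w j) * star (w j) := by simp only [mul_assoc]
    rw [h2, hc, hcx, zero_smul, mul_zero, zero_mul]
  calc x = 1 * x * 1 := by rw [one_mul, mul_one]
    _ = ∑ i, ∑ j, f i * x * f j := by
      rw [← hfsum, Finset.sum_mul, Finset.sum_mul]
      refine Finset.sum_congr rfl fun i _ => ?_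
      rw [Finset.mul_sum]
    _ = 0 := by simp [h1]

end Pool.Agent.Lib.MP_2001a4_an
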