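import Mathlib
import Pool.Agent.Lib.MP_2001a4_an.ApproxUnit

/-!
# An approximate unit with full, highly divisible differences: construction
-/

namespace Pool.Agent.Lib.MP_2001a4_an

open Filter Topology

universe u

variable {A : Type u} [NonUnitalCStarAlgebra A]

namespace AF

variable (D : AF A)

lemma step (hA : ∀ (E : Type u) [CStarAlgebra E], Nontrivial E →
    ∀ φ : A →⋆ₙₐ[ℂ] E, ¬ Function.Surjective φ) (N : ℕ) (hN : 0 < N) (m : ℕ) (p : A)
    (hp : p ∈ D.F m) (hpp : Proj p) :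
    ∃ (n : ℕ) (p' : A) (θ : Matrix (Fin N) (Fin N) ℂ →⋆ₙₐ[ℂ] A), m < n ∧ p' ∈ D.F n ∧ Proj p' ∧
      p' = p + θ 1 ∧ p * θ 1 = 0 ∧ D.q m * p' = D.q m ∧
      ∀ J : Submodule ℂ A, (∀ a : A, ∀ x ∈ J, a * x ∈ J) → (∀ a : A, ∀ x ∈ J, x * a ∈ J) →
        ∀ M, M ≠ 0 → θ M ∈ J → D.q m ∈ J := by
  choose g hg1 hg2 using D.exists_full hA
  let a : ℕ → ℕ := fun k => g^[k] m
  have ha0 : a 0 = m := rfl
  have hasucc : ∀ k, a (k + 1) = g (a k) := fun k => Function.iterate_succ_apply' g k m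
  have hamono : StrictMono a := strictMono_nat_of_lt_succ fun k => by
    rw [hasucc]; exact hg1 _
  set n := a N with hn
  have hmn : m < n := by rw [← ha0]; exact hamono hN
  have hFD := D.fd n
  have hclosed : IsClosed (D.F n : Set A) := isClosed_of_fd (D.F n)
  have hqa : ∀ k, k ≤ N → D.q (a k) ∈ D.F n := fun k hk => D.mono (hamono.monotone hk) (D.qmem _)
  have hpn : p ∈ D.F n := D.mono hmn.le hp
  have hqm : D.q m ∈ D.F n := D.mono hmn.le (D.qmem m)
  let R := D.F n
  let r₀ : R := ⟨D.q m - p, sub_mem hqm hpn⟩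
  let q : R := ⟨D.q m, hqm⟩
  let t : Fin N → R := fun k => ⟨D.q (a (k + 1)) - D.q (a k),
    sub_mem (hqa _ (by omega)) (hqa _ (by omega))⟩
  have hqp : D.q m * p = p := D.ql m p hp
  have hpq : p * D.q m = p := D.qr m p hp
  have hpq' : ∀ k, p * D.q (a k) = p := by
    intro k
    exact D.qr _ p (D.mono (by rw [← ha0]; exact hamono.monotone (Nat.zero_le k)) hp)
  have hqq : ∀ k, D.q m * D.q (a k) = D.q m := by
    intro k
    exact D.q_mul (by rw [← ha0]; exact hamono.monotone (Nat.zero_le k))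
  have hr₀ : Proj r₀ := by
    have h := (D.qproj m).sub hpp hqp
    exact ⟨Subtype.ext h.1, Subtype.ext h.2⟩
  have hq : Proj q := ⟨Subtype.ext (D.qproj m).1, Subtype.ext (D.qproj m).2⟩
  have ht : ∀ k, Proj (t k) := by
    intro k
    have h := (D.qproj (a (k + 1))).sub (D.qproj (a k))
      (D.q_mul' (hamono.monotone (Nat.le_succ _)))
    exact ⟨Subtype.ext h.1, Subtype.ext h.2⟩
  have hrt : ∀ k, r₀ * t k = 0 := by
    intro k
    apply Subtype.ext
    change (D.q m - p) * (D.q (a (k + 1)) - D.q (a k)) = 0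
    rw [sub_mul, mul_sub, mul_sub, hqq, hqq, hpq', hpq']
    abel
  have htt : ∀ k l, k ≠ l → t k * t l = 0 := by
    intro k l hkl
    apply Subtype.ext
    change (D.q (a (k + 1)) - D.q (a k)) * (D.q (a (l + 1)) - D.q (a l)) = 0
    have hkl' : (k : ℕ) ≠ (l : ℕ) := fun h => hkl (Fin.ext h)
    rcases Nat.lt_or_gt_of_ne hkl' with h | h
    · rw [sub_mul, mul_sub, mul_sub, D.q_mul (hamono.monotone (by omega)),
        D.q_mul (hamono.monotone (by omega)), D.q_mul (hamono.monotone (by omega)),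
        D.q_mul (hamono.monotone (by omega))]
      abel
    · rw [sub_mul, mul_sub, mul_sub, D.q_mul' (hamono.monotone (by omega)),
        D.q_mul' (hamono.monotone (by omega)), D.q_mul' (hamono.monotone (by omega)),
        D.q_mul' (hamono.monotone (by omega))]
      abel
  have hr₀q : r₀ * q = r₀ := by
    apply Subtype.ext
    change (D.q m - p) * D.q m = D.q m - p
    rw [sub_mul, (D.qproj m).2, hpq]
  have hD : ∀ k, ∀ x : R, (∀ y : R, x * y * t k = 0) → x * q = 0 := by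
    intro k x hx
    apply Subtype.ext
    change (x : A) * D.q m = 0
    have h1 := hg2 (a k) n (by rw [← hasucc]; exact hamono.monotone (by omega)) x x.2 (by
      intro y hy
      have := congrArg Subtype.val (hx ⟨y, hy⟩)
      change (x : A) * y * (D.q (a (k + 1)) - D.q (a k)) = 0 at this
      rwa [hasucc] at this)
    have h2 : (D.q (a k)) * D.q m = D.q m :=
      D.q_mul' (by rw [← ha0]; exact hamono.monotone (Nat.zero_le _))
    rw [← h2, ← mul_assoc, h1, zero_mul]
  obtain ⟨θ, hθ1, hθ2, hθ3⟩ := core N hN r₀ q t hr₀ hq ht hrt htt hr₀q hD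
  let ι : R →⋆ₙₐ[ℂ] A := NonUnitalStarSubalgebraClass.subtype (D.F n)
  have hsum : ((∑ k, t k : R) : A) = D.q n - D.q m := by
    have h1 : ((∑ k, t k : R) : A) = ∑ k : Fin N, (D.q (a (k + 1)) - D.q (a k)) := by
      rw [AddSubmonoidClass.coe_finsetSum]
    rw [h1, Finset.sum_range (fun k => D.q (a (k + 1)) - D.q (a k)) |>.symm,
      Finset.sum_range_sub (fun k => D.q (a k)), ha0]
  set e : A := ((θ 1 : R) : A) with he
  have heF : e ∈ D.F n := (θ 1).2
  have hee : Proj e := by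
    constructor
    · have h : star (θ 1) = θ 1 := by rw [← map_star, star_one]
      exact congrArg Subtype.val h
    · have h : θ 1 * θ 1 = θ 1 := by rw [← map_mul, one_mul]
      exact congrArg Subtype.val h
  have h1 : e * (D.q m - p + (D.q n - D.q m)) = e := by
    have := congrArg Subtype.val hθ1
    change e * ((D.q m - p) + ((∑ k, t k : R) : A)) = e at this
    rwa [hsum] at this
  have h2 : (D.q m - p) * e = D.q m - p := congrArg Subtype.val hθ2
  have hep : e * p = 0 := by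
    have h3 : D.q m - p + (D.q n - D.q m) = D.q n - p := by abel
    rw [h3, mul_sub, D.qr n e heF] at h1
    exact sub_eq_self.1 h1
  have hpe : p * e = 0 := by
    have := congrArg star hep
    rwa [star_mul, hpp.1, hee.1, star_zero] at this
  refine ⟨n, p + e, ι.comp θ, hmn, add_mem hpn heF, hpp.add hee hpe, rfl, hpe, ?_, ?_⟩
  · rw [sub_mul, hpe, sub_zero] at h2
    rw [mul_add, hqp, h2]; abel
  · intro J hJl hJr M hM hθM
    let J' : Submodule ℂ R := J.comap (ι : R →ₗ[ℂ] A)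
    have h3 : q ∈ J' := by
      refine hθ3 J' ?_ ?_ M hM hθM
      · intro a x hx
        exact hJl a x hx
      · intro a x hx
        exact hJr a x hx
    exact h3

/-- States of the recursive construction. -/
structure St where
  m : ℕ
  p : A
  hp : p ∈ D.F m
  hpp : Proj p

include D in
lemma exists_seq (hA : ∀ (E : Type u) [CStarAlgebra E], Nontrivial E →
    ∀ φ : A →⋆ₙₐ[ℂ] E, ¬ Function.Surjective φ) (N : ℕ → ℕ) (hN : ∀ k, 0 < N k) :
    ∃ (p : ℕ → A) (θ : ∀ k, Matrix (Fin (N k)) (Fin (N k)) ℂ →⋆ₙₐ[ℂ] A),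
      (∀ k, Proj (p k)) ∧ (∀ k, p (k + 1) = p k + θ k 1) ∧ (∀ k, p k * θ k 1 = 0) ∧
      (∀ a, Tendsto (fun k => p k * a) atTop (𝓝 a)) ∧
      ∀ k, ∀ J : Submodule ℂ A, (∀ a : A, ∀ x ∈ J, a * x ∈ J) →
        (∀ a : A, ∀ x ∈ J, x * a ∈ J) → ∀ M, M ≠ 0 → θ k M ∈ J → p k ∈ J := by
  have hstep : ∀ (k : ℕ) (s : D.St), ∃ (s' : D.St)
      (θ : Matrix (Fin (N k)) (Fin (N k)) ℂ →⋆ₙₐ[ℂ] A), s.m < s'.m ∧
      s'.p = s.p + θ 1 ∧ s.p * θ 1 = 0 ∧ D.q s.m * s'.p = D.q s.m ∧
      ∀ J : Submodule ℂ A, (∀ a : A, ∀ x ∈ J, a * x ∈ J) → (∀ a : A, ∀ x ∈ J, x * a ∈ J) →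
        ∀ M, M ≠ 0 → θ M ∈ J → D.q s.m ∈ J := by
    intro k s
    obtain ⟨n, p', θ, h1, h2, h3, h4, h5, h6, h7⟩ := D.step hA (N k) (hN k) s.m s.p s.hp s.hpp
    exact ⟨⟨n, p', h2, h3⟩, θ, h1, h4, h5, h6, h7⟩
  choose nxt θ' h1 h2 h3 h4 h5 using hstep
  let s : ℕ → D.St := fun k => Nat.rec ⟨0, 0, zero_mem _, star_zero _, mul_zero _⟩
    (fun k s => nxt k s) k
  have hs : ∀ k, s (k + 1) = nxt k (s k) := fun k => rfl
  have hm : ∀ k, k ≤ (s k).m := by
    intro k
    induction k with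
    | zero => exact Nat.zero_le _
    | succ k ih =>
      have := h1 k (s k)
      rw [← hs] at this
      omega
  have hp1 : ∀ k, (s (k + 1)).p = (s k).p + θ' k (s k) 1 := fun k => h2 k (s k)
  have hp2 : ∀ k, (s k).p * θ' k (s k) 1 = 0 := fun k => h3 k (s k)
  have hp3 : ∀ k, (s k).p * (s (k + 1)).p = (s k).p := by
    intro k
    rw [hp1, mul_add, (s k).hpp.2, hp2, add_zero]
  have hp3' : ∀ k, (s (k + 1)).p * (s k).p = (s k).p := by
    intro k
    have := congrArg star (hp3 k)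
    rwa [star_mul, (s k).hpp.1, (s (k + 1)).hpp.1] at this
  have hp4 : ∀ k l, k ≤ l → (s l).p * (s k).p = (s k).p := by
    intro k l hkl
    induction l, hkl using Nat.le_induction with
    | base => exact (s k).hpp.2
    | succ l _ ih =>
      rw [← ih, ← mul_assoc, hp3']
  have hq1 : ∀ k, (s (k + 1)).p * D.q (s k).m = D.q (s k).m := by
    intro k
    have h6 := h4 k (s k)
    rw [← hs] at h6
    have := congrArg star h6
    rwa [star_mul, (s (k + 1)).hpp.1, (D.qproj _).1] at this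
  refine ⟨fun k => (s k).p, fun k => θ' k (s k), fun k => (s k).hpp, hp1, hp2, ?_, ?_⟩
  · intro a
    rw [Metric.tendsto_atTop]
    intro ε hε
    obtain ⟨a', ha', haa'⟩ := Metric.mem_closure_iff.1 (D.dense a) ε hε
    obtain ⟨j, hj⟩ := Set.mem_iUnion.1 ha'
    refine ⟨j + 1, fun k hk => ?_⟩
    have haF : a' ∈ D.F (s j).m := D.mono (hm j) hj
    have h6 : (s k).p * a' = a' := by
      rw [← D.ql _ a' haF, ← mul_assoc]
      congr 1
      rw [← hq1 j, ← mul_assoc, hp4 _ _ hk]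
    rw [dist_comm, dist_eq_norm]
    have h7 : a - (s k).p * a = star (star (a - a') - star (a - a') * (s k).p) := by
      rw [star_sub, star_mul, star_star, (s k).hpp.1, mul_sub, h6]; abel
    rw [h7, norm_star]
    refine (proj_norm_sub_le (s k).hpp).trans_lt ?_
    rwa [norm_star, ← dist_eq_norm]
  · intro k J hJl hJr M hM hθM
    have h6 := h5 k (s k) J hJl hJr M hM hθM
    have h7 : (s k).p = D.q (s k).m * (s k).p := (D.ql _ _ (s k).hp).symm
    change (s k).p ∈ J
    rw [h7]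
    exact hJr _ _ h6

end AF

end Pool.Agent.Lib.MP_2001a4_an
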