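import Mathlib
import Pool.Agent.Lib.MP_2001a4_an.MatRep
import Pool.Agent.Lib.MP_2001a4_an.Seq
import Pool.Agent.Lib.MP_2001a4_an.Ext

/-!
# Stenotic unital extensions always exist
-/

namespace Pool.Agent.Lib.MP_2001a4_an

open Filter Topology MultiplierAlgebra

/-- Adjoin the unit of `C` to a subalgebra. -/
def unitize {C : Type*} [CStarAlgebra C] (T : NonUnitalStarSubalgebra ℂ C) :
    StarSubalgebra ℂ C where
  carrier := {x | ∃ s ∈ T, ∃ c : ℂ, x = s + c • (1 : C)}
  mul_mem' := by
    rintro _ _ ⟨s, hs, c, rfl⟩ ⟨t, ht, d, rfl⟩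
    refine ⟨s * t + d • s + c • t, add_mem (add_mem (mul_mem hs ht) (SMulMemClass.smul_mem d hs))
      (SMulMemClass.smul_mem c ht), c * d, ?_⟩
    rw [add_mul, mul_add, mul_add, mul_smul_comm, mul_one, smul_mul_assoc, one_mul,
      smul_mul_smul_comm, mul_one]
    abel
  one_mem' := ⟨0, zero_mem _, 1, by rw [one_smul, zero_add]⟩
  add_mem' := by
    rintro _ _ ⟨s, hs, c, rfl⟩ ⟨t, ht, d, rfl⟩
    refine ⟨s + t, add_mem hs ht, c + d, ?_⟩
    rw [add_smul]; abel
  zero_mem' := ⟨0, zero_mem _, 0, by rw [zero_smul, zero_add]⟩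
  algebraMap_mem' := by
    intro r
    exact ⟨0, zero_mem _, r, by rw [zero_add, Algebra.algebraMap_eq_smul_one]⟩
  star_mem' := by
    rintro _ ⟨s, hs, c, rfl⟩
    exact ⟨star s, star_mem hs, star c, by rw [star_add, star_smul, star_one]⟩

lemma unitize_mono {C : Type*} [CStarAlgebra C] {T T' : NonUnitalStarSubalgebra ℂ C}
    (h : T ≤ T') : unitize T ≤ unitize T' := by
  rintro _ ⟨s, hs, c, rfl⟩
  exact ⟨s, h hs, c, rfl⟩

lemma le_unitize {C : Type*} [CStarAlgebra C] (T : NonUnitalStarSubalgebra ℂ C) :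
    (T : Set C) ⊆ (unitize T : Set C) := by
  intro s hs
  exact ⟨s, hs, 0, by rw [zero_smul, add_zero]⟩

lemma unitize_fd {C : Type*} [CStarAlgebra C] (T : NonUnitalStarSubalgebra ℂ C)
    [FiniteDimensional ℂ T] : FiniteDimensional ℂ (unitize T) := by
  let g : (T × ℂ) →ₗ[ℂ] (unitize T) :=
    { toFun := fun x => ⟨(x.1 : C) + x.2 • (1 : C), ⟨x.1, x.1.2, x.2, rfl⟩⟩
      map_add' := by
        intro x y
        apply Subtype.ext
        change ((x.1 : C) + (y.1 : C)) + (x.2 + y.2) • (1 : C)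
          = ((x.1 : C) + x.2 • (1 : C)) + ((y.1 : C) + y.2 • (1 : C))
        rw [add_smul]; abel
      map_smul' := by
        intro r x
        apply Subtype.ext
        change r • (x.1 : C) + (r * x.2) • (1 : C) = r • ((x.1 : C) + x.2 • (1 : C))
        rw [smul_add, mul_smul] }
  refine Module.Finite.of_surjective g ?_
  rintro ⟨_, s, hs, c, rfl⟩
  exact ⟨(⟨s, hs⟩, c), rfl⟩

lemma unitize_closed {C : Type*} [CStarAlgebra C] (T : NonUnitalStarSubalgebra ℂ C)
    [FiniteDimensional ℂ T] : IsClosed (unitize T : Set C) := by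
  have h : FiniteDimensional ℂ (Subalgebra.toSubmodule (unitize T).toSubalgebra) := unitize_fd T
  exact Submodule.closed_of_finiteDimensional (Subalgebra.toSubmodule (unitize T).toSubalgebra)

lemma fd_of_span {A : Type*} [NonUnitalCStarAlgebra A] (S : NonUnitalStarSubalgebra ℂ A)
    (h : FiniteDimensional ℂ (Submodule.span ℂ (S : Set A))) : FiniteDimensional ℂ S := by
  let g : S →ₗ[ℂ] (Submodule.span ℂ (S : Set A)) :=
    { toFun := fun x => ⟨x, Submodule.subset_span x.2⟩
      map_add' := fun _ _ => rfl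
      map_smul' := fun _ _ => rfl }
  refine FiniteDimensional.of_injective g ?_
  intro x y hxy
  exact Subtype.ext (congrArg (fun z : Submodule.span ℂ (S : Set A) => (z : A)) hxy)

theorem main (A : Type) [NonUnitalCStarAlgebra A] (C : Type) [CStarAlgebra C]
    (hC : Nontrivial C)
    (hAF : ∃ S : ℕ → NonUnitalStarSubalgebra ℂ A, Monotone S ∧
          (∀ n, FiniteDimensional ℂ (Submodule.span ℂ (S n : Set A))) ∧
          Dense (⋃ n, (S n : Set A)))
    (hCF : ∃ S : ℕ → NonUnitalStarSubalgebra ℂ C, Monotone S ∧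
          (∀ n, FiniteDimensional ℂ (Submodule.span ℂ (S n : Set C))) ∧
          Dense (⋃ n, (S n : Set C)))
    (hquot : ∀ (D : Type) [CStarAlgebra D], Nontrivial D →
          ∀ φ : A →⋆ₙₐ[ℂ] D, ¬ Function.Surjective φ) :
      ∃ (B : Type) (_ : CStarAlgebra B) (ι : A →⋆ₙₐ[ℂ] B) (π : B →⋆ₐ[ℂ] C),
        Function.Injective ι ∧ Function.Surjective π ∧
        Set.range ι = {b : B | π b = 0} ∧
        ∀ I : TwoSidedIdeal B, IsClosed (I : Set B) →
          Set.range ι ⊆ (I : Set B) ∨ (I : Set B) ⊆ Set.range ι := by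
  obtain ⟨S, hSmono, hSfd, hSdense⟩ := hAF
  obtain ⟨T, hTmono, hTfd, hTdense⟩ := hCF
  have hSfd' : ∀ n, FiniteDimensional ℂ (S n) := fun n => fd_of_span (S n) (hSfd n)
  have hTfd' : ∀ n, FiniteDimensional ℂ (T n) := fun n => fd_of_span (T n) (hTfd n)
  have hunit := fun n => exists_unit_in (S n)
  choose q hq1 hq2 hq3 hq4 using hunit
  let D : AF A :=
    { F := S
      mono := hSmono
      fd := hSfd'
      dense := hSdense
      q := q
      qmem := hq1
      qproj := hq2
      ql := hq3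
      qr := hq4 }
  have hrep : ∀ k, ∃ (N : ℕ) (_ : 0 < N)
      (ρ : unitize (T k) →⋆ₐ[ℂ] Matrix (Fin N) (Fin N) ℂ), Function.Injective ρ := by
    intro k
    have h1 : IsClosed (unitize (T k) : Set C) := unitize_closed (T k)
    have h2 : FiniteDimensional ℂ (unitize (T k)) := unitize_fd (T k)
    have h3 : Nontrivial (unitize (T k)) :=
      ⟨⟨1, 0, fun h => one_ne_zero (congrArg Subtype.val h)⟩⟩
    exact exists_matRep (unitize (T k))
  choose N hN ρ hρ using hrep
  obtain ⟨p, θ, hp, hps, hpe, hlim, hfull⟩ := D.exists_seq hquot N hN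
  let E : ExtData A C :=
    { p := p
      hp := hp
      N := N
      hN := hN
      θ := θ
      hps := hps
      hpe := hpe
      lim := hlim
      full := hfull
      Ck := fun k => unitize (T k)
      mono := fun _ _ h => unitize_mono (hTmono h)
      closed := fun k => unitize_closed (T k)
      dense := hTdense.mono (Set.iUnion_mono fun k => le_unitize (T k))
      ρ := ρ
      hρ := hρ }
  exact ⟨E.B, inferInstance, E.ι, E.π, E.ι_injective, E.π_surjective, E.range_ι, E.stenotic⟩

end Pool.Agent.Lib.MP_2001a4_an
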